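import Pool.Agent.LSP.A13

/-! # LS, algebra block: St_AA -/

set_option autoImplicit false

namespace Pool.LSP

open LaurentPolynomial Pool.Agent.ARB Pool.Agent.Helper2 Pool.ALT

/-- [AA] a crossing and an alternating tangle with a unit bracket -/
theorem thm_AA : St_AA := by
  classical
  intro e w h ha hu
  by_contra hn
  push Not at hn
  obtain ⟨n1, n2, n3, n4, n5, n6, n7⟩ := hn
  obtain ⟨k, t, hkt⟩ := exists_kt h
  have h1 := br_AA h ha hkt hu
  obtain ⟨hν, hκ⟩ := conn h hkt n4 h1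
  by_cases h2 : Com (gE w h)
  · have h3 := n7 h2
    have hg : Hyp (gO w h) := ⟨n2, n4, n6, h3⟩
    rw [sum_O h hkt n4 hν hκ] at h1
    refine thmG hg ?_ (FS_sg _ e (Or.inr h1))
    obtain ⟨q1, q2, q3⟩ := k_eq h (hkt ∅)
    rw [t_empty h hkt n3, Finset.sdiff_empty, hκ] at q2
    exact q2
  · have hg : Hyp (gE w h) := ⟨n1, n3, n5, h2⟩
    rw [sum_E h hkt hκ] at h1
    exact thmG hg hν (FS_sg _ e (Or.inl h1))

end Pool.LSP
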