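import Pool.Agent.LSP.A14

/-! # LS, algebra block: St_AK -/

set_option autoImplicit false

namespace Pool.LSP

open LaurentPolynomial Pool.Agent.ARB Pool.Agent.Helper2 Pool.ALT

theorem run_DW {w : Word} {g b : LP} (h : HasPair w g b) (V : Type) [AddCommGroup V] [Module LP V]
    (M : Model LP V) (hM : Good M) :
    runW M (DW w) M.init = (loopVal * (b + loopVal * g)) • M.init := by
  have h0 := M.supp_init
  have h2 : M.Supp 2 (M.cup 0 M.init) := M.supp_cup 0 0 _ (by omega) h0
  have e : runW M (DW w) M.init = M.cap 0 (runW M w (M.cup 0 M.init)) := by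
    show runW M (pU 0 :: (w ++ [pN 0])) M.init = _
    rw [pairRun_cons, pairRun_append]
    rfl
  have h5 := h V M hM 0 2 _ (by omega) h2
  rw [sh_zero] at h5
  have h9 : M.cap 0 (M.cup 0 M.init) = loopVal • M.init := by
    rw [← hM.del]
    exact M.rel1 0 0 _ h0 (by omega)
  rw [e, h5, h9]
  simp only [map_add, map_smul]
  rw [h9]
  module

/-- the bracket of the denominator closure -/
theorem br_DW {w : Word} {g b : LP} (hw : Ok w 2 2) (h : HasPair w g b) :
    bracket (toD (DW w)) = b + loopVal * g := by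
  obtain ⟨V, _, _, M, hM, hinj⟩ := thm_Vert
  have hD : Ok (DW w) 0 0 := ok_DW hw
  have hfo : forget (toD (DW w)) = DW w := Pool.Agent.ALT.forget_lift (DW w)
  have hok : Pool.Agent.Helper2.Ok (toD (DW w)) 0 0 := Pool.Agent.ALT.lift_ok (DW w) 0 0 hD
  have hne' : toD (DW w) ≠ [] := by
    intro h5
    have h6 : DW w = [] := by
      rw [← hfo, h5]
      rfl
    exact List.cons_ne_nil _ _ h6
  have h6 := thm_BrRun V M hM (toD (DW w)) hne' hok
  rw [hfo, run_DW h V M hM] at h6
  have h5 := hinj _ _ h6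
  exact (mul_left_cancel₀ pairRun_loopVal_ne h5).symm

/-- the state sum of the denominator closure -/
noncomputable def DS (s : ℤ) (n : ℕ) (l : Finset (Fin n) → ℕ) : LP :=
  ∑ A : Finset (Fin n), T (s * ((n : ℤ) - 2 * A.card)) * loopVal ^ l A

theorem DS_inv (s : ℤ) (n : ℕ) (l : Finset (Fin n) → ℕ) : invert (DS s n l) = DS (-s) n l := by
  unfold DS
  rw [map_sum]
  refine Finset.sum_congr rfl fun A _ => ?_
  rw [map_mul, map_pow, inv_loop, invert_T, neg_mul]

theorem DS_not {n : ℕ} (hn : 1 ≤ n) {l : Finset (Fin n) → ℕ}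
    (h1 : ∀ A : Finset (Fin n), A.Nonempty → l A + 1 ≤ l ∅ + A.card)
    (h2 : ∀ A : Finset (Fin n), (Finset.univ \ A).Nonempty →
      l A + A.card + 1 ≤ l Finset.univ + n) :
    ¬ Un (DS 1 n l) := by
  classical
  intro hU
  obtain ⟨k, c, hc, hco⟩ := un_coeff hU
  have htop : (DS 1 n l).coeff ((n : ℤ) + 2 * l ∅) = (-1) ^ l ∅ := by
    unfold DS
    rw [coeff_sum', Finset.sum_eq_single ∅]
    · rw [tm_top]
      rw [Finset.card_empty]
      push_cast
      ring
    · intro A _ hA
      have h3 := h1 A (Finset.nonempty_iff_ne_empty.2 hA)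
      apply tm_high
      omega
    · intro h
      exact absurd (Finset.mem_univ _) h
  have hbot : (DS 1 n l).coeff (-(n : ℤ) - 2 * l Finset.univ) = (-1) ^ l Finset.univ := by
    unfold DS
    rw [coeff_sum', Finset.sum_eq_single Finset.univ]
    · rw [tm_bot]
      rw [Finset.card_univ, Fintype.card_fin]
      ring
    · intro A _ hA
      have h3 := h2 A (by
        rw [Finset.nonempty_iff_ne_empty]
        intro h
        apply hA
        rw [Finset.sdiff_eq_empty_iff_subset] at h
        exact Finset.eq_univ_of_forall fun x => h (Finset.mem_univ x))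
      apply tm_low
      have h4 : A.card ≤ n := by
        have := Finset.card_le_univ A
        rwa [Fintype.card_fin] at this
      omega
    · intro h
      exact absurd (Finset.mem_univ _) h
  have e1 := hco ((n : ℤ) + 2 * l ∅)
  have e2 := hco (-(n : ℤ) - 2 * l Finset.univ)
  rw [htop] at e1
  rw [hbot] at e2
  have e3 : (n : ℤ) + 2 * l ∅ = k := by
    by_contra h
    rw [if_neg h] at e1
    exact pow_ne_zero _ (by norm_num) e1
  have e4 : -(n : ℤ) - 2 * l Finset.univ = k := by
    by_contra h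
    rw [if_neg h] at e2
    exact pow_ne_zero _ (by norm_num) e2
  omega

/-- [AK] -/
theorem thm_AK : St_AK := by
  classical
  intro e w h ha hn hu
  by_contra hc
  push Not at hc
  obtain ⟨c1, c2⟩ := hc
  obtain ⟨k, t, hkt⟩ := exists_kt h
  have hp := mo_HP e w k t h ha hkt
  rw [br_DW h hp] at hu
  have h3 : DS (sg e) (nX w) (fun A => k A + (t A).toNat) =
      (∑ A : Finset (Fin (nX w)) with ¬ t A = true,
        T (sg e * ((nX w : ℤ) - 2 * A.card)) * loopVal ^ k A) +
      loopVal * (∑ A : Finset (Fin (nX w)) with t A = true,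
        T (sg e * ((nX w : ℤ) - 2 * A.card)) * loopVal ^ k A) := by
    unfold DS
    rw [← Finset.sum_filter_add_sum_filter_not Finset.univ (fun A => t A = true),
      Finset.mul_sum, add_comm]
    congr 1
    · refine Finset.sum_congr rfl fun A hA => ?_
      rw [Finset.mem_filter] at hA
      have h4 : t A = false := by simpa using hA.2
      show T (sg e * ((nX w : ℤ) - 2 * A.card)) * loopVal ^ (k A + (t A).toNat) = _
      rw [h4]
      rfl
    · refine Finset.sum_congr rfl fun A hA => ?_
      rw [Finset.mem_filter] at hA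
      show T (sg e * ((nX w : ℤ) - 2 * A.card)) * loopVal ^ (k A + (t A).toNat) = _
      rw [hA.2, show (true : Bool).toNat = 1 from rfl, pow_succ]
      ring
  have hU : Un (DS 1 (nX w) (fun A => k A + (t A).toNat)) := by
    have hu' : Un (DS (sg e) (nX w) (fun A => k A + (t A).toNat)) := by
      rw [h3]
      exact hu
    cases e with
    | true => exact hu'
    | false =>
      have h4 := un_inv hu'
      rw [DS_inv] at h4
      exact h4
  -- numbers of classes with the marked vertices joined
  have hN : ∀ A : Finset (Fin (nX w)), nc ((gE w h).sp ⊥ A) + (t A).toNat =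
      nc ((gE w h).sp ⊥ A ⊔ (gE w h).ab) + 1 := by
    intro A
    obtain ⟨-, h7, -⟩ := mo_CT w h A _ _ (hkt A)
    cases ht : t A with
    | true =>
      have h5 : (gE w h).sp ⊥ A ⊔ (gE w h).ab = (gE w h).sp ⊥ A := sup_pr_of _ (h7.2 ht)
      rw [h5]
      rfl
    | false =>
      have h4 : ¬ (gE w h).sp ⊥ A (gE w h).a (gE w h).b := by
        intro h5
        rw [h7.1 h5] at ht
        exact absurd ht (by decide)
      exact (nc_sup_pr h4).symm
  have hc : ∀ A : Finset (Fin (nX w)), (Finset.univ \ A).card + A.card = nX w := by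
    intro A
    rw [Finset.card_sdiff_add_card_eq_card (Finset.subset_univ A), Finset.card_univ,
      Fintype.card_fin]
  refine DS_not hn ?_ ?_ hU
  · intro A hA
    obtain ⟨p1, p2, p3⟩ := k_eq h (hkt A)
    obtain ⟨q1, q2, q3⟩ := k_eq h (hkt ∅)
    have r1 := hN A
    have r2 := hN ∅
    rw [Gr.sp_empty, bot_sup_eq] at r2
    rw [Gr.sp_empty] at q1 q3
    rw [Finset.card_empty] at q3
    have r3 : nc ((gE w h).sp ⊥ A ⊔ (gE w h).ab) + 1 ≤ nc ((gE w h).ab) := by
      obtain ⟨x, hx⟩ := hA
      have h5 : ¬ (gE w h).ab ((gE w h).u x) ((gE w h).v x) := by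
        rintro (h6 | ⟨h6, h7⟩ | ⟨h6, h7⟩)
        · exact (c1 x).1 h6
        · exact (c1 x).2 (Or.inl ⟨h6, h7⟩)
        · exact (c1 x).2 (Or.inr ⟨h6, h7⟩)
      have h6 := nc_sup_pr h5
      have h7 : (gE w h).ab ⊔ pr ((gE w h).u x) ((gE w h).v x) ≤
          (gE w h).sp ⊥ A ⊔ (gE w h).ab :=
        sup_le le_sup_right ((Gr.pe_le_sp _ ⊥ hx).trans le_sup_left)
      have h8 := nc_anti h7
      omega
    show k A + (t A).toNat + 1 ≤ k ∅ + (t ∅).toNat + A.card
    omega
  · intro A hA
    obtain ⟨p1, p2, p3⟩ := k_eq h (hkt A)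
    obtain ⟨q1, q2, q3⟩ := k_eq h (hkt Finset.univ)
    have r1 := hN A
    have r2 := hN Finset.univ
    rw [Finset.sdiff_self, Gr.sp_empty] at q1 q2 q3
    rw [Finset.card_univ, Fintype.card_fin] at q3
    have r3 := nc_lt c2 hA
    rw [nc_bot, Nat.card_eq_fintype_card] at q1 q2
    have r4 := hc A
    show k A + (t A).toNat + A.card + 1 ≤ k Finset.univ + (t Finset.univ).toNat + nX w
    omega

end Pool.LSP
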