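import Pool.Agent.ALT.Mo.All

/-! # LS, algebra block: definitions and the two statements used by the geometry block -/

set_option autoImplicit false

namespace Pool.LSP

open LaurentPolynomial Pool.Agent.ARB Pool.Agent.Helper2 Pool.ALT

/-- the word is alternating -/
def AltW (e : Bool) (w : Word) : Prop := ∀ (p : Bool) (i : ℕ), pX i p ∈ w → (p = e ↔ i % 2 = 0)

/-- `± A ^ k` -/
def Un (P : LP) : Prop := ∃ k : ℤ, P = T k ∨ P = -T k

/-- the edge `k` has the ends `x`, `y`, in some order -/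
def Jn {V E : Type} (g : Gr V E) (k : E) (x y : V) : Prop :=
  (g.u k = x ∧ g.v k = y) ∨ (g.u k = y ∧ g.v k = x)

/-- the marked vertices have a common neighbour -/
def Com {V E : Type} (g : Gr V E) : Prop := ∃ (k k' : E) (y : V), Jn g k g.a y ∧ Jn g k' y g.b

/-- [AK] an alternating closed diagram with a unit bracket and at least one crossing has a nugatory
crossing. -/
def St_AK : Prop := ∀ (e : Bool) (w : Word) (h : Ok w 2 2), AltW e w → 1 ≤ nX w →
  Un (bracket (toD (DW w))) →
  (∃ k, (gE w h).u k = (gE w h).v k ∨ Jn (gE w h) k (gE w h).a (gE w h).b) ∨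
    ∃ k, (gO w h).u k = (gO w h).v k

/-- [AA] a crossing and an alternating tangle with a unit bracket. -/
def St_AA : Prop := ∀ (e : Bool) (w : Word) (h : Ok w 2 2), AltW e w →
  Un (bracket (toD (NW (w ++ [pX 0 (!e)])))) →
  (∃ k, (gE w h).u k = (gE w h).v k) ∨ (∃ k, (gO w h).u k = (gO w h).v k) ∨
    (gE w h).a = (gE w h).b ∨ (gO w h).a = (gO w h).b ∨
    (∃ k, Jn (gE w h) k (gE w h).a (gE w h).b) ∨ (∃ k, Jn (gO w h) k (gO w h).a (gO w h).b) ∨
    (Com (gE w h) ∧ Com (gO w h))

end Pool.LSP
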