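import Pool.Agent.LSP.A0
import Pool.Agent.ALT.Ex.Gra

/-! # LS, algebra block: coefficients of `T c * loopVal ^ m`, the state sum of a graph -/

set_option autoImplicit false

namespace Pool.LSP

open LaurentPolynomial Pool.Agent.ARB Pool.Agent.Helper2 Pool.ALT

theorem coeff_neg' (P : LP) (j : ℤ) : (-P).coeff j = -P.coeff j := by
  rw [AddMonoidAlgebra.coeff_neg, Finsupp.neg_apply]

theorem coeff_T' (k j : ℤ) : (T k : LP).coeff j = if j = k then 1 else 0 := by
  rw [show (T k : LP) = AddMonoidAlgebra.single k 1 from rfl, AddMonoidAlgebra.coeff_single,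
    Finsupp.single_apply]
  by_cases h : j = k
  · rw [if_pos h, if_pos h.symm]
  · rw [if_neg h, if_neg (fun h' => h h'.symm)]

theorem coeff_sum' {ι : Type} (s : Finset ι) (f : ι → LP) (j : ℤ) :
    (∑ i ∈ s, f i).coeff j = ∑ i ∈ s, (f i).coeff j := by
  classical
  induction s using Finset.induction_on with
  | empty =>
    rw [Finset.sum_empty, Finset.sum_empty, AddMonoidAlgebra.coeff_zero]
    rfl
  | insert a s ha ih => rw [Finset.sum_insert ha, Finset.sum_insert ha, coeff_add', ih]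

theorem lv_succ (m : ℕ) (j : ℤ) : (loopVal ^ (m + 1) : LP).coeff j =
    -((loopVal ^ m : LP).coeff (j - 2) + (loopVal ^ m : LP).coeff (j + 2)) := by
  have h : (loopVal ^ (m + 1) : LP) = -(T 2 * loopVal ^ m + T (-2) * loopVal ^ m) := by
    rw [pow_succ']
    conv_lhs => rw [show (loopVal : LP) = -(T 2 + T (-2)) from rfl]
    rw [show (loopVal : LP) = -(T 2 + T (-2)) from rfl]
    ring
  rw [h, coeff_neg', coeff_add', coeff_T_mul, coeff_T_mul, sub_neg_eq_add]

theorem lv_zero (j : ℤ) : (loopVal ^ 0 : LP).coeff j = if j = 0 then 1 else 0 := by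
  rw [pow_zero, ← T_zero, coeff_T']

theorem lv_high (m : ℕ) : ∀ j : ℤ, 2 * (m : ℤ) < j → (loopVal ^ m : LP).coeff j = 0 := by
  induction m with
  | zero =>
    intro j hj
    rw [lv_zero, if_neg]
    intro h
    rw [h] at hj
    simp at hj
  | succ m ih =>
    intro j hj
    push_cast at hj
    rw [lv_succ, ih _ (by omega), ih _ (by omega)]
    rfl

theorem lv_low (m : ℕ) : ∀ j : ℤ, j < -(2 * (m : ℤ)) → (loopVal ^ m : LP).coeff j = 0 := by
  induction m with
  | zero =>
    intro j hj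
    rw [lv_zero, if_neg]
    intro h
    rw [h] at hj
    simp at hj
  | succ m ih =>
    intro j hj
    push_cast at hj
    rw [lv_succ, ih _ (by omega), ih _ (by omega)]
    rfl

theorem lv_top (m : ℕ) : (loopVal ^ m : LP).coeff (2 * (m : ℤ)) = (-1) ^ m := by
  induction m with
  | zero => rw [lv_zero, if_pos (by simp), pow_zero]
  | succ m ih =>
    rw [lv_succ, lv_high m (2 * ((m + 1 : ℕ) : ℤ) + 2) (by push_cast; omega),
      show 2 * ((m + 1 : ℕ) : ℤ) - 2 = 2 * (m : ℤ) by push_cast; ring, ih, pow_succ]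
    ring

theorem lv_bot (m : ℕ) : (loopVal ^ m : LP).coeff (-(2 * (m : ℤ))) = (-1) ^ m := by
  induction m with
  | zero => rw [lv_zero, if_pos (by simp), pow_zero]
  | succ m ih =>
    rw [lv_succ, lv_low m (-(2 * ((m + 1 : ℕ) : ℤ)) - 2) (by push_cast; omega),
      show -(2 * ((m + 1 : ℕ) : ℤ)) + 2 = -(2 * (m : ℤ)) by push_cast; ring, ih, pow_succ]
    ring

theorem lv_next (m : ℕ) : (loopVal ^ m : LP).coeff (2 * (m : ℤ) - 4) = (-1) ^ m * m := by
  induction m with
  | zero =>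
    rw [lv_zero, if_neg (by simp)]
    simp
  | succ m ih =>
    rw [lv_succ, show 2 * ((m + 1 : ℕ) : ℤ) - 4 - 2 = 2 * (m : ℤ) - 4 by push_cast; ring, ih,
      show 2 * ((m + 1 : ℕ) : ℤ) - 4 + 2 = 2 * (m : ℤ) by push_cast; ring, lv_top, pow_succ]
    push_cast
    ring

/-- `T c * loopVal ^ m`: highest and next coefficient. -/
theorem tm_high (c : ℤ) (m : ℕ) (j : ℤ) (h : c + 2 * m < j) :
    (T c * loopVal ^ m : LP).coeff j = 0 := by
  rw [coeff_T_mul, lv_high m _ (by omega)]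

theorem tm_low (c : ℤ) (m : ℕ) (j : ℤ) (h : j < c - 2 * m) :
    (T c * loopVal ^ m : LP).coeff j = 0 := by
  rw [coeff_T_mul, lv_low m _ (by omega)]

theorem tm_top (c : ℤ) (m : ℕ) (j : ℤ) (h : j = c + 2 * m) :
    (T c * loopVal ^ m : LP).coeff j = (-1) ^ m := by
  rw [coeff_T_mul, show j - c = 2 * (m : ℤ) by omega, lv_top]

theorem tm_bot (c : ℤ) (m : ℕ) (j : ℤ) (h : j = c - 2 * m) :
    (T c * loopVal ^ m : LP).coeff j = (-1) ^ m := by
  rw [coeff_T_mul, show j - c = -(2 * (m : ℤ)) by omega, lv_bot]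

theorem tm_next (c : ℤ) (m : ℕ) (j : ℤ) (h : j = c + 2 * m - 4) :
    (T c * loopVal ^ m : LP).coeff j = (-1) ^ m * m := by
  rw [coeff_T_mul, show j - c = 2 * (m : ℤ) - 4 by omega, lv_next]

/-- a unit has one coefficient `± 1`, the others vanish -/
theorem un_coeff {P : LP} (h : Un P) : ∃ (k : ℤ) (c : ℤ), (c = 1 ∨ c = -1) ∧
    ∀ j, P.coeff j = if j = k then c else 0 := by
  obtain ⟨k, h | h⟩ := h
  · exact ⟨k, 1, Or.inl rfl, fun j => by rw [h, coeff_T']⟩
  · refine ⟨k, -1, Or.inr rfl, fun j => ?_⟩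
    rw [h, coeff_neg', coeff_T']
    split_ifs <;> rfl

end Pool.LSP
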