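import Pool.Agent.LSP.A9

/-! # LS, algebra block: the sum over colourings of a bipartite graph -/

set_option autoImplicit false

namespace Pool.LSP

open LaurentPolynomial Pool.Agent.ARB Pool.Agent.Helper2 Pool.ALT

variable {V E : Type}

/-- first ends, with the extra edge -/
def uo (g : Gr V E) : Option E → V
  | none => g.a
  | some e => g.u e

/-- second ends, with the extra edge -/
def vo (g : Gr V E) : Option E → V
  | none => g.b
  | some e => g.v e

/-- pairs of colourings, shifted by `χ` -/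
def shE (χ : V → ZMod 2) : ((V → ZMod 2) × (V → ZMod 2)) ≃ (V → K4) where
  toFun p w := (p.1 w + χ w, p.2 w + χ w)
  invFun F := (fun w => (F w).1 - χ w, fun w => (F w).2 - χ w)
  left_inv p := by
    refine Prod.ext ?_ ?_
    · funext w
      exact add_sub_cancel_right _ _
    · funext w
      exact add_sub_cancel_right _ _
  right_inv F := by
    funext w
    refine Prod.ext ?_ ?_
    · exact sub_add_cancel _ _
    · exact sub_add_cancel _ _

theorem z2_iff : ∀ a b c d : ZMod 2, c + d = 1 → (a + c = b + d ↔ a + b = 1) := by decide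

theorem z2_mul : ∀ a b : ZMod 2, sn (a * b) = if a = 1 ∧ b = 1 then -1 else 1 := by decide

theorem shE_iff {χ : V → ZMod 2} {x y : V} (h : χ x + χ y = 1) (f f' : V → ZMod 2) :
    shE χ (f, f') x = shE χ (f, f') y ↔ f x + f y = 1 ∧ f' x + f' y = 1 := by
  show ((f x + χ x, f' x + χ x) : K4) = (f y + χ y, f' y + χ y) ↔ _
  rw [Prod.mk.injEq, z2_iff _ _ _ _ h, z2_iff _ _ _ _ h]

variable [Fintype V] [Fintype E]

omit [Fintype V] in
open Classical in
theorem term_eq (g : Gr V E) {χ : V → ZMod 2} (hχ : ∀ e, dd (uo g) (vo g) χ e = 1)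
    (f f' : V → ZMod 2) :
    (if shE χ (f, f') g.a = shE χ (f, f') g.b then -2 * (1 + 3 * ep) else 2 * (1 - ep)) *
        (1 + (-2 + 4 * ep)) ^ (Ce g (shE χ (f, f'))).card =
      2 * (1 - ep) * ((sn (Bf (uo g) (vo g) f f') : ℤ) : DualNumber ℤ) *
        (1 - 4 * ep * ((∑ e : E, if dd (uo g) (vo g) f (some e) = 1 ∧
          dd (uo g) (vo g) f' (some e) = 1 then 1 else 0) -
          (if dd (uo g) (vo g) f none = 1 ∧ dd (uo g) (vo g) f' none = 1 then 1 else 0))) := by
  have hC : (Ce g (shE χ (f, f'))).card = ∑ e : E, if dd (uo g) (vo g) f (some e) = 1 ∧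
          dd (uo g) (vo g) f' (some e) = 1 then 1 else 0 := by
    unfold Ce
    rw [Finset.card_filter]
    refine Finset.sum_congr rfl fun e _ => ?_
    have h : shE χ (f, f') (g.u e) = shE χ (f, f') (g.v e) ↔
        dd (uo g) (vo g) f (some e) = 1 ∧ dd (uo g) (vo g) f' (some e) = 1 :=
      shE_iff (hχ (some e)) f f'
    by_cases h1 : dd (uo g) (vo g) f (some e) = 1 ∧ dd (uo g) (vo g) f' (some e) = 1
    · rw [if_pos h1, if_pos (h.2 h1)]
    · rw [if_neg h1, if_neg (fun h2 => h1 (h.1 h2))]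
  have hs : sn (Bf (uo g) (vo g) f f') =
      (if dd (uo g) (vo g) f none = 1 ∧ dd (uo g) (vo g) f' none = 1 then -1 else 1) *
        (-1) ^ (Ce g (shE χ (f, f'))).card := by
    unfold Bf
    rw [sn_sum, Fintype.prod_option, z2_mul]
    congr 1
    rw [hC, ← Finset.prod_pow_eq_pow_sum]
    refine Finset.prod_congr rfl fun e _ => ?_
    rw [z2_mul]
    split_ifs <;> rfl
  have hC' : (∑ e : E, if dd (uo g) (vo g) f (some e) = 1 ∧
          dd (uo g) (vo g) f' (some e) = 1 then 1 else 0 : DualNumber ℤ) =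
      ((Ce g (shE χ (f, f'))).card : DualNumber ℤ) := by
    rw [hC]
    push_cast
    rfl
  rw [hC', hs]
  obtain ⟨c, hc⟩ : ∃ c, c = (Ce g (shE χ (f, f'))).card := ⟨_, rfl⟩
  rw [← hc, show (1 + (-2 + 4 * ep) : DualNumber ℤ) = -1 * (1 + (-4) * ep) by ring, mul_pow,
    one_add_pow]
  have h' : shE χ (f, f') g.a = shE χ (f, f') g.b ↔
    dd (uo g) (vo g) f none = 1 ∧ dd (uo g) (vo g) f' none = 1 := shE_iff (hχ none) f f'
  by_cases h1 : dd (uo g) (vo g) f none = 1 ∧ dd (uo g) (vo g) f' none = 1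
  · rw [if_pos h1, if_pos h1, if_pos (h'.2 h1)]
    push_cast
    linear_combination ((-1) ^ c * (32 * (c : DualNumber ℤ) - 8)) * ep_mul
  · rw [if_neg h1, if_neg h1, if_neg (fun h2 => h1 (h'.1 h2))]
    push_cast
    ring

open Classical in
theorem gauss [DecidableEq V] (g : Gr V E) {χ : V → ZMod 2}
    (hχ : ∀ e, dd (uo g) (vo g) χ e = 1) :
    ∑ F : V → K4, (if F g.a = F g.b then -2 * (1 + 3 * ep) else 2 * (1 - ep)) *
          (1 + (-2 + 4 * ep)) ^ (Ce g F).card =
      2 * (1 - ep) * (((Zs (uo g) (vo g) : ℤ) : DualNumber ℤ) -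
        4 * ep * (((∑ e : E, Ze (uo g) (vo g) (some e) : ℤ) : DualNumber ℤ) -
          ((Ze (uo g) (vo g) none : ℤ) : DualNumber ℤ))) := by
  rw [← (shE χ).sum_comp, Fintype.sum_prod_type]
  rw [Finset.sum_congr rfl fun f _ => Finset.sum_congr rfl fun f' _ => term_eq g hχ f f']
  unfold Zs Ze
  have hZ : ∀ e : Option E, ((∑ f : V → ZMod 2, ∑ f' : V → ZMod 2,
      (if dd (uo g) (vo g) f e = 1 ∧ dd (uo g) (vo g) f' e = 1 then
        sn (Bf (uo g) (vo g) f f') else 0) : ℤ) : DualNumber ℤ) =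
      ∑ f : V → ZMod 2, ∑ f' : V → ZMod 2, ((sn (Bf (uo g) (vo g) f f') : ℤ) : DualNumber ℤ) *
        (if dd (uo g) (vo g) f e = 1 ∧ dd (uo g) (vo g) f' e = 1 then 1 else 0) := by
    intro e
    push_cast
    refine Finset.sum_congr rfl fun f _ => Finset.sum_congr rfl fun f' _ => ?_
    split_ifs <;> ring
  have hS : ((∑ e : E, ∑ f : V → ZMod 2, ∑ f' : V → ZMod 2,
      (if dd (uo g) (vo g) f (some e) = 1 ∧ dd (uo g) (vo g) f' (some e) = 1 then
        sn (Bf (uo g) (vo g) f f') else 0) : ℤ) : DualNumber ℤ) =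
      ∑ f : V → ZMod 2, ∑ f' : V → ZMod 2, ((sn (Bf (uo g) (vo g) f f') : ℤ) : DualNumber ℤ) *
        ∑ e : E, (if dd (uo g) (vo g) f (some e) = 1 ∧ dd (uo g) (vo g) f' (some e) = 1
          then 1 else 0) := by
    rw [Int.cast_sum, Finset.sum_congr rfl fun e _ => hZ (some e), Finset.sum_comm]
    refine Finset.sum_congr rfl fun f _ => ?_
    rw [Finset.sum_comm]
    refine Finset.sum_congr rfl fun f' _ => ?_
    rw [Finset.mul_sum]
  rw [hS, hZ none]
  push_cast
  simp only [Finset.mul_sum, mul_sub, ← Finset.sum_sub_distrib]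
  refine Finset.sum_congr rfl fun f _ => Finset.sum_congr rfl fun f' _ => ?_
  simp only [← Finset.mul_sum]
  ring

end Pool.LSP
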