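import Pool.Agent.LSP.A5
import Pool.Agent.LSP.A10

/-! # LS, algebra block: Theorem G -/

set_option autoImplicit false

namespace Pool.LSP

open LaurentPolynomial Pool.Agent.ARB Pool.Agent.Helper2 Pool.ALT

theorem dn_inj {a b c d : ℤ} (h : (a : DualNumber ℤ) + (b : DualNumber ℤ) * ep =
    (c : DualNumber ℤ) + (d : DualNumber ℤ) * ep) : a = c ∧ b = d := by
  have h1 : ∀ x y : ℤ, TrivSqZeroExt.fst ((x : DualNumber ℤ) + (y : DualNumber ℤ) * ep) = x := by
    intro x y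
    simp [ep]
  have h2 : ∀ x y : ℤ, TrivSqZeroExt.snd ((x : DualNumber ℤ) + (y : DualNumber ℤ) * ep) = y := by
    intro x y
    simp [ep]
  constructor
  · rw [← h1 a b, h, h1]
  · rw [← h2 a b, h, h2]

theorem un_ev {P : LP} (h : Un P) : ∃ (k : ℤ) (c : ℤ), (c = 1 ∨ c = -1) ∧
    (∀ j, P.coeff j = if j = k then c else 0) ∧
    evd P = (c : DualNumber ℤ) * (1 + (k : DualNumber ℤ) * ep) := by
  obtain ⟨k, h | h⟩ := h
  · exact ⟨k, 1, Or.inl rfl, fun j => by rw [h, coeff_T'], by rw [h, evd_T]; push_cast; ring⟩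
  · refine ⟨k, -1, Or.inr rfl, fun j => ?_, by rw [h, map_neg, evd_T]; push_cast; ring⟩
    rw [h, coeff_neg', coeff_T']
    split_ifs <;> rfl

variable {V E : Type} [Fintype V] [Fintype E]

theorem thmG {g : Gr V E} (hg : Hyp g) (hc : nc (g.sp ⊥ Finset.univ) = 1) :
    ¬ Un (FS g 1) := by
  classical
  intro hU
  obtain ⟨k, c, hc1, hco, hev⟩ := un_ev hU
  have hne : Nonempty V := ⟨g.a⟩
  have hk : (Fintype.card E : ℤ) + 2 * Fintype.card V - 7 = k := by
    by_contra h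
    have h1 := hco ((Fintype.card E : ℤ) + 2 * Fintype.card V - 7)
    rw [if_neg h, cf_top hg] at h1
    exact pow_ne_zero _ (by norm_num) h1
  have h0 : (FS g 1).coeff ((Fintype.card E : ℤ) + 2 * Fintype.card V - 11) = 0 := by
    rw [hco, if_neg]
    omega
  obtain ⟨χ, hχ, hab⟩ := bip hg hc h0
  have hb : ∀ p q : Bool, p ≠ q → (if p then (1 : ZMod 2) else 0) + (if q then 1 else 0) = 1 := by
    decide
  have hχ' : ∀ e, dd (uo g) (vo g) (fun w => if χ w then (1 : ZMod 2) else 0) e = 1 := by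
    intro e
    cases e with
    | none => exact hb _ _ hab
    | some e => exact hb _ _ (hχ e)
  have h1 := ev_FS g
  rw [gauss g hχ', hev] at h1
  obtain ⟨S, hS⟩ : ∃ S : ℤ, S = ∑ e : E, Ze (uo g) (vo g) (some e) := ⟨_, rfl⟩
  obtain ⟨W, hW⟩ : ∃ W, W = Fintype.card V := ⟨_, rfl⟩
  obtain ⟨n, hn⟩ : ∃ n, n = Fintype.card E := ⟨_, rfl⟩
  rw [← hS, ← hW, ← hn] at h1
  have h2 : (((4 * (-2) ^ (W + 2) * c : ℤ)) : DualNumber ℤ) +
      ((4 * (-2) ^ (W + 2) * c * k : ℤ) : DualNumber ℤ) * ep =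
      ((8 * Zs (uo g) (vo g) : ℤ) : DualNumber ℤ) +
      ((8 * (((n : ℤ) - 1) * Zs (uo g) (vo g) - 4 * (S - Ze (uo g) (vo g) none)) : ℤ) :
        DualNumber ℤ) * ep := by
    push_cast
    linear_combination h1 + (-8 * (n : DualNumber ℤ) * (Zs (uo g) (vo g) : DualNumber ℤ) -
      32 * ((n : DualNumber ℤ) - 1) * ((S : DualNumber ℤ) - (Ze (uo g) (vo g) none : ℤ)) +
      32 * (n : DualNumber ℤ) * ep * ((S : DualNumber ℤ) - (Ze (uo g) (vo g) none : ℤ))) * ep_mul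
  obtain ⟨h3, h4⟩ := dn_inj h2
  have hZs := Zs_eq (uo g) (vo g)
  rw [← hW] at hZs
  have hker : (Finset.univ.filter fun f => Lm (uo g) (vo g) f = 0).card = 2 := by
    obtain ⟨K, hK⟩ : ∃ K, K = (Finset.univ.filter fun f => Lm (uo g) (vo g) f = 0).card :=
      ⟨_, rfl⟩
    rw [← hK] at hZs ⊢
    rw [hZs] at h3
    have h5 : (2 : ℤ) ^ W ≠ 0 := pow_ne_zero _ (by norm_num)
    have h6 : ((-2 : ℤ)) ^ (W + 2) = (-1) ^ W * 2 ^ W * 4 := by
      rw [pow_add, show (-2 : ℤ) = -1 * 2 by norm_num, mul_pow]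
      norm_num
    rw [h6] at h3
    have h7 : (2 : ℤ) ^ W * (2 * ((-1) ^ W * c)) = 2 ^ W * K := by
      linarith
    have h8 := mul_left_cancel₀ h5 h7
    have h9 : (-1 : ℤ) ^ W = 1 ∨ (-1 : ℤ) ^ W = -1 := neg_one_pow_eq_or ℤ W
    rcases h9 with h9 | h9 <;> rcases hc1 with hc1 | hc1 <;> rw [h9, hc1] at h8 <;> omega
  have hZe : ∀ e, 2 * Ze (uo g) (vo g) e = -Zs (uo g) (vo g) := fun e =>
    lemZ (uo g) (vo g) _ hχ' hker e
  have hS2 : 2 * S = -(n * Zs (uo g) (vo g)) := by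
    rw [hS, Finset.mul_sum, Finset.sum_congr rfl fun e _ => hZe (some e), Finset.sum_const,
      Finset.card_univ, ← hn, nsmul_eq_mul]
    ring
  have h5 : Zs (uo g) (vo g) ≠ 0 := by
    rw [hZs, hker]
    have : (2 : ℤ) ^ W ≠ 0 := pow_ne_zero _ (by norm_num)
    intro h
    rcases mul_eq_zero.1 h with h | h
    · exact this h
    · exact absurd h (by norm_num)
  have h6 : Zs (uo g) (vo g) * k = Zs (uo g) (vo g) * (3 * ((n : ℤ) - 1)) := by
    have h7 := hZe none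
    have h8 : 8 * Zs (uo g) (vo g) * k = 8 * (((n : ℤ) - 1) * Zs (uo g) (vo g) -
      4 * (S - Ze (uo g) (vo g) none)) := by
      rw [← h3]
      exact h4
    linarith
  have h7 := mul_left_cancel₀ h5 h6
  have h8 := nc_le g Finset.univ
  rw [hc, Finset.card_univ] at h8
  rw [← hn, ← hW] at hk
  rw [← hn, ← hW] at h8
  omega

end Pool.LSP
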