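import Pool.Agent.LSP.A11
import Pool.Agent.ALT.Ex.Main

/-! # LS, algebra block: the state sum of a crossing and an alternating tangle -/

set_option autoImplicit false

namespace Pool.LSP

open LaurentPolynomial Pool.Agent.ARB Pool.Agent.Helper2 Pool.ALT

theorem exists_kt {w : Word} (h : Ok w 2 2) : ∃ (k : Finset (Fin (nX w)) → ℕ)
    (t : Finset (Fin (nX w)) → Bool), ∀ A, Nf (jo (seq A) w) (k A) (t A) := by
  have h1 : ∀ A : Finset (Fin (nX w)), ∃ (k : ℕ) (t : Bool), Nf (jo (seq A) w) k t := by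
    intro A
    obtain ⟨h1, h2⟩ := thm_JO.1 (seq A) w 2 2 h
    exact thm_NF _ h1 h2
  choose k t hkt using h1
  exact ⟨k, t, hkt⟩

/-- a unit is not divisible by the loop value -/
theorem un_not_dvd {P Q : LP} (h : Un P) (hd : P = loopVal * Q) : False := by
  obtain ⟨k, c, hc, -, hev⟩ := un_ev h
  rw [hd, map_mul, evd_loop] at hev
  have h1 := congrArg TrivSqZeroExt.fst hev
  have h2 : TrivSqZeroExt.fst (-2 * evd Q : DualNumber ℤ) =
      -2 * TrivSqZeroExt.fst (evd Q) := by
    rw [TrivSqZeroExt.fst_mul]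
    congr 1
  have h3 : TrivSqZeroExt.fst ((c : DualNumber ℤ) * (1 + (k : DualNumber ℤ) * ep)) = c := by
    simp [ep]
  rw [h2, h3] at h1
  omega

theorem cross_pair (p : Bool) : HasPair [pX 0 p] (Arb.cross p).pair.1 (Arb.cross p).pair.2 :=
  fun V _ _ M hM => (thm_PairRun V M hM).1 (Arb.cross p)

theorem wrong_sign (e : Bool) (γ β : LP) :
    γ * (Arb.cross (!e)).pair.2 + β * (Arb.cross (!e)).pair.1 +
      loopVal * (γ * (Arb.cross (!e)).pair.1) + loopVal * (β * (Arb.cross (!e)).pair.2) =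
      -(T (3 * sg e) * γ + T (-3 * sg e) * β) := by
  have h1 : (loopVal : LP) = -(T 2 + T (-2)) := rfl
  cases e with
  | true =>
    show γ * T (-1) + β * T 1 + loopVal * (γ * T 1) + loopVal * (β * T (-1)) =
      -(T 3 * γ + T (-3) * β)
    have h2 : (T 2 : LP) * T 1 = T 3 := by rw [← T_add]; rfl
    have h3 : (T (-2) : LP) * T 1 = T (-1) := by rw [← T_add]; rfl
    have h4 : (T 2 : LP) * T (-1) = T 1 := by rw [← T_add]; rfl
    have h5 : (T (-2) : LP) * T (-1) = T (-3) := by rw [← T_add]; rfl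
    rw [h1]
    linear_combination -γ * h2 - γ * h3 - β * h4 - β * h5
  | false =>
    show γ * T 1 + β * T (-1) + loopVal * (γ * T (-1)) + loopVal * (β * T 1) =
      -(T (-3) * γ + T 3 * β)
    have h2 : (T 2 : LP) * T 1 = T 3 := by rw [← T_add]; rfl
    have h3 : (T (-2) : LP) * T 1 = T (-1) := by rw [← T_add]; rfl
    have h4 : (T 2 : LP) * T (-1) = T 1 := by rw [← T_add]; rfl
    have h5 : (T (-2) : LP) * T (-1) = T (-3) := by rw [← T_add]; rfl
    rw [h1]
    linear_combination -γ * h4 - γ * h5 - β * h2 - β * h3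

/-- the terms of the state sum -/
noncomputable def tmA (e : Bool) (n : ℕ) (c k : ℕ) (t : Bool) : LP :=
  if t = true then T (sg e * ((n : ℤ) - 2 * c + 3)) * loopVal ^ k
  else T (sg e * ((n : ℤ) - 2 * c - 3)) * loopVal ^ k

/-- the state sum of the numerator closure with the crossing of the other sign -/
theorem br_AA {e : Bool} {w : Word} (h : Ok w 2 2) (ha : AltW e w)
    {k : Finset (Fin (nX w)) → ℕ} {t : Finset (Fin (nX w)) → Bool}
    (hkt : ∀ A, Nf (jo (seq A) w) (k A) (t A))
    (hu : Un (bracket (toD (NW (w ++ [pX 0 (!e)]))))) :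
    Un (∑ A : Finset (Fin (nX w)), tmA e (nX w) A.card (k A) (t A)) := by
  have hp := mo_HP e w k t h ha hkt
  have hok : Ok (NW (w ++ [pX 0 (!e)])) 0 0 := ok_NW (h.append (okA (.cross (!e))))
  obtain ⟨u, hu1, hbr⟩ := ex_br (ex_sum hp (cross_pair (!e))) hok (Iso.refl _ _)
  rw [hbr, wrong_sign] at hu
  have h1 := Pool.Agent.ALT.isU_right hu
  have h2 : IsU (T (3 * sg e) * (∑ A : Finset (Fin (nX w)) with t A = true,
      T (sg e * ((nX w : ℤ) - 2 * A.card)) * loopVal ^ k A) +
      T (-3 * sg e) * (∑ A : Finset (Fin (nX w)) with ¬ t A = true,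
      T (sg e * ((nX w : ℤ) - 2 * A.card)) * loopVal ^ k A)) := by
    have h3 := h1.neg
    rw [neg_neg] at h3
    exact h3
  have h3 : ∑ A : Finset (Fin (nX w)), tmA e (nX w) A.card (k A) (t A) =
      T (3 * sg e) * (∑ A : Finset (Fin (nX w)) with t A = true,
      T (sg e * ((nX w : ℤ) - 2 * A.card)) * loopVal ^ k A) +
      T (-3 * sg e) * (∑ A : Finset (Fin (nX w)) with ¬ t A = true,
      T (sg e * ((nX w : ℤ) - 2 * A.card)) * loopVal ^ k A) := by
    rw [← Finset.sum_filter_add_sum_filter_not Finset.univ (fun A => t A = true),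
      Finset.mul_sum, Finset.mul_sum]
    congr 1
    · refine Finset.sum_congr rfl fun A hA => ?_
      rw [Finset.mem_filter] at hA
      unfold tmA
      rw [if_pos hA.2, ← mul_assoc, ← T_add]
      congr 2
      ring
    · refine Finset.sum_congr rfl fun A hA => ?_
      rw [Finset.mem_filter] at hA
      unfold tmA
      rw [if_neg hA.2, ← mul_assoc, ← T_add]
      congr 2
      ring
  rw [h3]
  exact h2

end Pool.LSP
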