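import Pool.Agent.LSP.A12

/-! # LS, algebra block: numbers of loops in terms of the two graphs -/

set_option autoImplicit false

namespace Pool.LSP

open LaurentPolynomial Pool.Agent.ARB Pool.Agent.Helper2 Pool.ALT

theorem un_inv {P : LP} (h : Un P) : Un (invert P) := by
  obtain ⟨k, h | h⟩ := h
  · exact ⟨-k, Or.inl (by rw [h, invert_T])⟩
  · exact ⟨-k, Or.inr (by rw [h, map_neg, invert_T])⟩

theorem inv_loop : (invert (loopVal : LP)) = loopVal := by
  rw [show (loopVal : LP) = -(T 2 + T (-2)) from rfl, map_neg, map_add, invert_T, invert_T,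
    neg_neg, add_comm]

theorem FS_inv {V E : Type} [Fintype V] [Fintype E] (g : Gr V E) (s : ℤ) :
    invert (FS g s) = FS g (-s) := by
  unfold FS
  rw [map_sum]
  refine Finset.sum_congr rfl fun A _ => ?_
  split_ifs
  · rw [map_mul, map_pow, inv_loop, invert_T, neg_mul]
  · rw [map_mul, map_pow, inv_loop, invert_T, neg_mul]

theorem FS_sg {V E : Type} [Fintype V] [Fintype E] (g : Gr V E) (e : Bool)
    (h : Un (FS g (sg e)) ∨ Un (FS g (-sg e))) : Un (FS g 1) := by
  have h1 : Un (FS g (-1)) → Un (FS g 1) := by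
    intro h
    have h2 := un_inv h
    rw [FS_inv, neg_neg] at h2
    exact h2
  cases e with
  | true =>
    rcases h with h | h
    · exact h
    · exact h1 h
  | false =>
    rcases h with h | h
    · exact h1 h
    · have h2 : (-sg false : ℤ) = 1 := rfl
      rw [h2] at h
      exact h

section

variable {w : Word} (h : Ok w 2 2)

/-- The relation between the numbers of loops and the numbers of classes. -/
theorem k_eq {A : Finset (Fin (nX w))} {k : ℕ} {t : Bool} (hkt : Nf (jo (seq A) w) k t) :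
    (k + 3 = nc ((gE w h).sp ⊥ A) + nc ((gO w h).sp ⊥ (Finset.univ \ A))) ∧
    (nc ((gO w h).sp ⊥ (Finset.univ \ A)) =
      nc ((gO w h).sp ⊥ (Finset.univ \ A) ⊔ (gO w h).ab) + t.toNat) ∧
    (nc ((gO w h).sp ⊥ (Finset.univ \ A) ⊔ (gO w h).ab) + Fintype.card (Reg true w) =
      nc ((gE w h).sp ⊥ A) + A.card + nc ((gO w h).sp ⊥ Finset.univ ⊔ (gO w h).ab)) := by
  obtain ⟨h1, h2, h3⟩ := mo_CT w h A k t hkt
  refine ⟨h1.symm, ?_, mo_DU w h A⟩
  cases t with
  | true =>
    have h4 : ¬ (gO w h).sp ⊥ (Finset.univ \ A) (gO w h).a (gO w h).b := by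
      intro h5
      exact absurd (h3.1 h5) (by decide)
    exact (nc_sup_pr h4).symm
  | false =>
    have h4 := h3.2 rfl
    have h5 : (gO w h).sp ⊥ (Finset.univ \ A) ⊔ (gO w h).ab = (gO w h).sp ⊥ (Finset.univ \ A) :=
      sup_pr_of _ h4
    rw [h5]
    rfl

variable {k : Finset (Fin (nX w)) → ℕ} {t : Finset (Fin (nX w)) → Bool}

theorem t_univ (hkt : ∀ A, Nf (jo (seq A) w) (k A) (t A)) (hcd : (gO w h).a ≠ (gO w h).b) :
    t Finset.univ = true := by
  obtain ⟨-, -, h3⟩ := mo_CT w h Finset.univ _ _ (hkt Finset.univ)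
  rw [Finset.sdiff_self, Gr.sp_empty] at h3
  by_contra h4
  exact hcd (h3.2 (by simpa using h4))

theorem t_empty (hkt : ∀ A, Nf (jo (seq A) w) (k A) (t A)) (hab : (gE w h).a ≠ (gE w h).b) :
    t ∅ = false := by
  obtain ⟨-, h3, -⟩ := mo_CT w h ∅ _ _ (hkt ∅)
  rw [Gr.sp_empty] at h3
  by_contra h4
  exact hab (h3.2 (by simpa using h4))

theorem k_low (hkt : ∀ A, Nf (jo (seq A) w) (k A) (t A))
    (hcd : (gO w h).a ≠ (gO w h).b) (A : Finset (Fin (nX w))) :
    nc ((gE w h).sp ⊥ Finset.univ) + nc ((gO w h).sp ⊥ Finset.univ ⊔ (gO w h).ab) ≤ k A + 2 := by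
  obtain ⟨h1, h2, h3⟩ := k_eq h (hkt A)
  have h4 : nc ((gO w h).sp ⊥ Finset.univ ⊔ (gO w h).ab) ≤
      nc ((gO w h).sp ⊥ (Finset.univ \ A) ⊔ (gO w h).ab) :=
    nc_anti (sup_le_sup_right (Gr.sp_mono _ le_rfl (Finset.subset_univ _)) _)
  have h5 : (gE w h).sp ⊥ A ≤ (gE w h).sp ⊥ Finset.univ :=
    Gr.sp_mono _ le_rfl (Finset.subset_univ _)
  have h6 := nc_anti h5
  obtain ⟨-, h7, -⟩ := mo_CT w h A _ _ (hkt A)
  obtain ⟨-, h8, -⟩ := mo_CT w h Finset.univ _ _ (hkt Finset.univ)
  have h9 := h8.2 (t_univ h hkt hcd)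
  cases ht : t A with
  | true =>
    rw [ht] at h2
    have h10 : (true : Bool).toNat = 1 := rfl
    omega
  | false =>
    have h10 : ¬ (gE w h).sp ⊥ A (gE w h).a (gE w h).b := by
      intro h11
      rw [h7.1 h11] at ht
      exact absurd ht (by decide)
    have h11 := nc_sup_pr h10
    have h12 : (gE w h).sp ⊥ A ⊔ pr (gE w h).a (gE w h).b ≤ (gE w h).sp ⊥ Finset.univ :=
      sup_le h5 ((pr_le_iff _ _ _).2 h9)
    have h13 := nc_anti h12
    omega

/-- both graphs are connected -/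
theorem conn {e : Bool} (hkt : ∀ A, Nf (jo (seq A) w) (k A) (t A))
    (hcd : (gO w h).a ≠ (gO w h).b)
    (hu : Un (∑ A : Finset (Fin (nX w)), tmA e (nX w) A.card (k A) (t A))) :
    nc ((gE w h).sp ⊥ Finset.univ) = 1 ∧
      nc ((gO w h).sp ⊥ Finset.univ ⊔ (gO w h).ab) = 1 := by
  have : Nonempty (Reg true w) := ⟨(gE w h).a⟩
  have : Nonempty (Reg false w) := ⟨(gO w h).a⟩
  have h1 := nc_pos ((gE w h).sp ⊥ Finset.univ)
  have h2 := nc_pos ((gO w h).sp ⊥ Finset.univ ⊔ (gO w h).ab)
  by_contra h3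
  have h4 : ∀ A, 1 ≤ k A := by
    intro A
    have := k_low h hkt hcd A
    omega
  refine un_not_dvd (Q := ∑ A : Finset (Fin (nX w)), tmA e (nX w) A.card (k A - 1) (t A)) hu ?_
  rw [Finset.mul_sum]
  refine Finset.sum_congr rfl fun A _ => ?_
  have h5 : k A = k A - 1 + 1 := by
    have := h4 A
    omega
  unfold tmA
  split_ifs
  · conv_lhs => rw [h5, pow_succ]
    ring
  · conv_lhs => rw [h5, pow_succ]
    ring

/-- the state sum is the state sum of the even graph -/
theorem sum_E {e : Bool} (hkt : ∀ A, Nf (jo (seq A) w) (k A) (t A))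
    (hκ : nc ((gO w h).sp ⊥ Finset.univ ⊔ (gO w h).ab) = 1) :
    ∑ A : Finset (Fin (nX w)), tmA e (nX w) A.card (k A) (t A) = FS (gE w h) (sg e) := by
  classical
  unfold FS
  refine Finset.sum_congr rfl fun A _ => ?_
  obtain ⟨h1, h2, h3⟩ := k_eq h (hkt A)
  obtain ⟨-, h7, -⟩ := mo_CT w h A _ _ (hkt A)
  rw [hκ] at h3
  unfold tmA
  cases ht : t A with
  | true =>
    rw [ht] at h2
    have h10 : (true : Bool).toNat = 1 := rfl
    rw [if_pos rfl, if_pos (h7.2 ht), Fintype.card_fin]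
    congr 2
    omega
  | false =>
    rw [ht] at h2
    have h10 : (false : Bool).toNat = 0 := rfl
    have h11 : ¬ (gE w h).sp ⊥ A (gE w h).a (gE w h).b := by
      intro h12
      rw [h7.1 h12] at ht
      exact absurd ht (by decide)
    rw [if_neg (by decide), if_neg h11, Fintype.card_fin]
    congr 2
    omega

/-- the state sum is the state sum of the odd graph -/
theorem sum_O {e : Bool} (hkt : ∀ A, Nf (jo (seq A) w) (k A) (t A))
    (hcd : (gO w h).a ≠ (gO w h).b)
    (hν : nc ((gE w h).sp ⊥ Finset.univ) = 1)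
    (hκ : nc ((gO w h).sp ⊥ Finset.univ ⊔ (gO w h).ab) = 1) :
    ∑ A : Finset (Fin (nX w)), tmA e (nX w) A.card (k A) (t A) = FS (gO w h) (-sg e) := by
  classical
  have hVV : Fintype.card (Reg true w) + Fintype.card (Reg false w) = nX w + 3 := by
    obtain ⟨h1, h2, h3⟩ := k_eq h (hkt Finset.univ)
    rw [t_univ h hkt hcd, Finset.sdiff_self] at h2
    rw [Finset.sdiff_self, hκ, hν, Finset.card_univ, Fintype.card_fin] at h3
    rw [Gr.sp_empty, nc_bot, Nat.card_eq_fintype_card] at h2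
    rw [Gr.sp_empty] at h3
    have h10 : (true : Bool).toNat = 1 := rfl
    omega
  have hbij : Function.Bijective (fun A : Finset (Fin (nX w)) => Finset.univ \ A) := by
    have hinv : Function.Involutive (fun A : Finset (Fin (nX w)) => Finset.univ \ A) := by
      intro A
      show Finset.univ \ (Finset.univ \ A) = A
      ext x
      simp
    exact hinv.bijective
  unfold FS
  rw [← hbij.sum_comp (fun B : Finset (Fin (nX w)) =>
    if (gO w h).sp ⊥ B (gO w h).a (gO w h).b then
      T (-sg e * ((Fintype.card (Fin (nX w)) : ℤ) - 2 * B.card + 3)) *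
        loopVal ^ (2 * nc ((gO w h).sp ⊥ B) + B.card - (Fintype.card (Reg false w) + 1))
    else
      (T (-sg e * ((Fintype.card (Fin (nX w)) : ℤ) - 2 * B.card - 3)) *
        loopVal ^ (2 * nc ((gO w h).sp ⊥ B) + B.card - (Fintype.card (Reg false w) + 2)) : LP))]
  refine Finset.sum_congr rfl fun A _ => ?_
  obtain ⟨h1, h2, h3⟩ := k_eq h (hkt A)
  obtain ⟨-, -, h7⟩ := mo_CT w h A _ _ (hkt A)
  have hc : (Finset.univ \ A).card + A.card = nX w := by
    rw [Finset.card_sdiff_add_card_eq_card (Finset.subset_univ A), Finset.card_univ,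
      Fintype.card_fin]
  rw [hκ] at h3
  unfold tmA
  cases ht : t A with
  | true =>
    rw [ht] at h2
    have h10 : (true : Bool).toNat = 1 := rfl
    have h11 : ¬ (gO w h).sp ⊥ (Finset.univ \ A) (gO w h).a (gO w h).b := by
      intro h12
      rw [h7.1 h12] at ht
      exact absurd ht (by decide)
    rw [if_pos rfl, if_neg h11, Fintype.card_fin]
    congr 2
    · have h12 : ((Finset.univ \ A).card : ℤ) = nX w - A.card := by omega
      rw [h12]
      ring
    · omega
  | false =>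
    rw [ht] at h2
    have h10 : (false : Bool).toNat = 0 := rfl
    rw [if_neg (by decide), if_pos (h7.2 ht), Fintype.card_fin]
    congr 2
    · have h12 : ((Finset.univ \ A).card : ℤ) = nX w - A.card := by omega
      rw [h12]
      ring
    · omega

end

end Pool.LSP
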