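import Pool.Agent.LSP.A1

/-! # LS, algebra block: reduction of alternating sums to a transversal of the parallel classes -/

set_option autoImplicit false

namespace Pool.LSP

open Pool.ALT

variable {V E : Type} (g : Gr V E)

theorem pe_eq_of_Jn {e : E} {x y : V} (h : Jn g e x y) : g.pe e = pr x y := by
  rcases h with ⟨h1, h2⟩ | ⟨h1, h2⟩
  · show pr (g.u e) (g.v e) = _
    rw [h1, h2]
  · show pr (g.u e) (g.v e) = _
    rw [h1, h2, pr_comm]

theorem Jn_of_pe {e : E} {x y : V} (hxy : x ≠ y) (h : g.pe e = pr x y) : Jn g e x y := by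
  have h1 : g.pe e x y := by
    rw [h]
    exact pr_rel x y
  rcases h1 with h1 | ⟨h1, h2⟩ | ⟨h1, h2⟩
  · exact absurd h1 hxy
  · exact Or.inl ⟨h1.symm, h2.symm⟩
  · exact Or.inr ⟨h2.symm, h1.symm⟩

theorem Jn_symm {e : E} {x y : V} (h : Jn g e x y) : Jn g e y x := Or.symm h

variable [DecidableEq E]

theorem cancel (R : Finset E) (e e' : E) (he : e ∈ R) (he' : e' ∈ R) (hne : e ≠ e')
    (hp : g.pe e = g.pe e') (ψ : Setoid V → ℤ) :
    ∑ A ∈ R.powerset, (-1) ^ A.card * ψ (g.sp ⊥ A) =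
      ∑ A ∈ (R.erase e').powerset, (-1) ^ A.card * ψ (g.sp ⊥ A) := by
  have h1 : e' ∉ R.erase e' := Finset.notMem_erase e' R
  have h2 : e ∈ R.erase e' := Finset.mem_erase.2 ⟨hne, he⟩
  have h3 : e ∉ (R.erase e').erase e := Finset.notMem_erase e _
  conv_lhs => rw [← Finset.insert_erase he', Finset.sum_powerset_insert h1]
  have h4 : ∑ A ∈ (R.erase e').powerset,
      (-1) ^ (insert e' A).card * ψ (g.sp ⊥ (insert e' A)) = 0 := by
    conv_lhs => rw [← Finset.insert_erase h2, Finset.sum_powerset_insert h3]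
    rw [← Finset.sum_add_distrib]
    apply Finset.sum_eq_zero
    intro A hA
    rw [Finset.mem_powerset] at hA
    have h5 : e ∉ A := fun h => h3 (hA h)
    have h6 : e' ∉ A := fun h => h1 (Finset.mem_of_mem_erase (hA h))
    have h7 : e' ∉ insert e A := by
      rw [Finset.mem_insert]
      rintro (h | h)
      · exact hne h.symm
      · exact h6 h
    have h8 : g.sp ⊥ (insert e' (insert e A)) = g.sp ⊥ (insert e' A) := by
      rw [g.sp_insert, g.sp_insert, g.sp_insert, sup_assoc, hp, sup_idem]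
    rw [h8, Finset.card_insert_of_notMem h7, Finset.card_insert_of_notMem h5,
      Finset.card_insert_of_notMem h6]
    ring
  rw [h4, add_zero]

/-- reduction to a transversal of the parallel classes -/
theorem red (R : Finset E) : ∃ S ⊆ R, (∀ e ∈ R, ∃ s ∈ S, g.pe e = g.pe s) ∧
    (∀ s ∈ S, ∀ s' ∈ S, g.pe s = g.pe s' → s = s') ∧
    ∀ ψ : Setoid V → ℤ, ∑ A ∈ R.powerset, (-1) ^ A.card * ψ (g.sp ⊥ A) =
      ∑ A ∈ S.powerset, (-1) ^ A.card * ψ (g.sp ⊥ A) := by
  induction R using Finset.strongInduction with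
  | H R ih =>
    by_cases h : ∀ s ∈ R, ∀ s' ∈ R, g.pe s = g.pe s' → s = s'
    · exact ⟨R, Finset.Subset.refl R, fun e he => ⟨e, he, rfl⟩, h, fun ψ => rfl⟩
    · push Not at h
      obtain ⟨e, he, e', he', hp, hne⟩ := h
      obtain ⟨S, hS, h1, h2, h3⟩ := ih (R.erase e') (Finset.erase_ssubset he')
      refine ⟨S, hS.trans (Finset.erase_subset _ _), ?_, h2, ?_⟩
      · intro f hf
        by_cases hfe : f = e'
        · obtain ⟨s, hs, hs'⟩ := h1 e (Finset.mem_erase.2 ⟨hne, he⟩)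
          exact ⟨s, hs, by rw [hfe, ← hp, hs']⟩
        · exact h1 f (Finset.mem_erase.2 ⟨hfe, hf⟩)
      · intro ψ
        rw [cancel g R e e' he he' hne hp, h3]

end Pool.LSP
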