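import Pool.Agent.LSP.A2

/-! # LS, algebra block: edge sets of small rank which join the marked vertices -/

set_option autoImplicit false

namespace Pool.LSP

open Pool.ALT

/-- no loops, marked vertices different, not adjacent, without common neighbour -/
structure Hyp {V E : Type} (g : Gr V E) : Prop where
  lp : ∀ e, g.u e ≠ g.v e
  ab : g.a ≠ g.b
  nab : ∀ e, ¬ Jn g e g.a g.b
  ncom : ¬ Com g

section basic

variable {V E : Type} {g : Gr V E}

theorem Hyp.ne (hg : Hyp g) {e : E} {x y : V} (h : Jn g e x y) : x ≠ y := by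
  intro hxy
  subst hxy
  rcases h with ⟨h1, h2⟩ | ⟨h1, h2⟩ <;> exact hg.lp e (h1.trans h2.symm)

/-- an edge at `p` -/
theorem inc {A : Finset E} {p q : V} (hpq : p ≠ q) (h : g.sp ⊥ A p q) :
    ∃ e ∈ A, ∃ x, Jn g e p x := by
  classical
  by_contra hn
  push Not at hn
  have h1 : g.sp ⊥ A ≤ Setoid.ker (fun z : V => decide (z = p)) := by
    apply g.sp_le bot_le
    intro e he
    show decide (g.u e = p) = decide (g.v e = p)
    have h2 : g.u e ≠ p := fun h => hn e he (g.v e) (Or.inl ⟨h, rfl⟩)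
    have h3 : g.v e ≠ p := fun h => hn e he (g.u e) (Or.inr ⟨rfl, h⟩)
    rw [decide_eq_false h2, decide_eq_false h3]
  have h2 : decide (p = p) = decide (q = p) := h1 h
  rw [decide_eq_true rfl] at h2
  exact hpq (of_decide_eq_true h2.symm).symm

theorem J3 (hg : Hyp g) {A : Finset E} (h : g.sp ⊥ A g.a g.b) :
    ∃ e ∈ A, ∃ f ∈ A, ∃ x y, Jn g e g.a x ∧ Jn g f y g.b ∧
      x ≠ g.a ∧ x ≠ g.b ∧ y ≠ g.a ∧ y ≠ g.b ∧ x ≠ y := by
  obtain ⟨e, he, x, hx⟩ := inc hg.ab h
  obtain ⟨f, hf, y, hy⟩ := inc hg.ab.symm ((g.sp ⊥ A).symm' h)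
  refine ⟨e, he, f, hf, x, y, hx, Jn_symm g hy, (hg.ne hx).symm, ?_, ?_, (hg.ne hy).symm, ?_⟩
  · rintro rfl
    exact hg.nab e hx
  · rintro rfl
    exact hg.nab f (Jn_symm g hy)
  · rintro rfl
    exact hg.ncom ⟨e, f, x, hx, Jn_symm g hy⟩

end basic

section finite

variable {V E : Type} [Fintype V] [DecidableEq V] {g : Gr V E}

theorem rt4 {A : Finset E} {e f : E} {x y : V} (he : e ∈ A) (hf : f ∈ A)
    (h : g.sp ⊥ A g.a g.b) (hx : Jn g e g.a x) (hy : Jn g f y g.b) :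
    rt ({g.a, g.b, x, y} : Finset V) ≤ g.sp ⊥ A := by
  have h1 : g.sp ⊥ A g.a x := by
    apply g.pe_le_sp ⊥ he
    rw [pe_eq_of_Jn g hx]
    exact pr_rel _ _
  have h2 : g.sp ⊥ A y g.b := by
    apply g.pe_le_sp ⊥ hf
    rw [pe_eq_of_Jn g hy]
    exact pr_rel _ _
  have key : ∀ z ∈ ({g.a, g.b, x, y} : Finset V), g.sp ⊥ A g.a z := by
    intro z hz
    simp only [Finset.mem_insert, Finset.mem_singleton] at hz
    rcases hz with rfl | rfl | rfl | rfl
    · exact (g.sp ⊥ A).refl' _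
    · exact h
    · exact h1
    · exact (g.sp ⊥ A).trans' h ((g.sp ⊥ A).symm' h2)
  rw [Setoid.le_def]
  rintro p q (h3 | ⟨h3, h4⟩)
  · rw [h3]
  · exact (g.sp ⊥ A).trans' ((g.sp ⊥ A).symm' (key p h3)) (key q h4)

omit [Fintype V] in
theorem card4 {a b x y : V} (h0 : a ≠ b) (h1 : x ≠ a) (h2 : x ≠ b) (h3 : y ≠ a) (h4 : y ≠ b)
    (h5 : x ≠ y) : ({a, b, x, y} : Finset V).card = 4 := by
  rw [Finset.card_insert_of_notMem, Finset.card_insert_of_notMem, Finset.card_insert_of_notMem,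
    Finset.card_singleton]
  · simpa using h5
  · simp only [Finset.mem_insert, Finset.mem_singleton, not_or]
    exact ⟨h2.symm, h4.symm⟩
  · simp only [Finset.mem_insert, Finset.mem_singleton, not_or]
    exact ⟨h0, h1.symm, h3.symm⟩

/-- the rank of a set which joins the marked vertices is at least `3` -/
theorem J3_nc (hg : Hyp g) {A : Finset E} (h : g.sp ⊥ A g.a g.b) :
    nc (g.sp ⊥ A) + 3 ≤ Fintype.card V := by
  obtain ⟨e, he, f, hf, x, y, hx, hy, h1, h2, h3, h4, h5⟩ := J3 hg h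
  have h6 := nc_anti (rt4 he hf h hx hy)
  have h7 := RT_nc ({g.a, g.b, x, y} : Finset V) ⟨g.a, by simp⟩
  rw [card4 hg.ab h1 h2 h3 h4 h5] at h7
  omega

/-- `A` is a path of length 3 between the marked vertices with middle edge `m` -/
def Pa (g : Gr V E) [DecidableEq E] (S A : Finset E) (m : E) : Prop :=
  ∃ e ∈ S, ∃ f ∈ S, ∃ x y, A = {e, m, f} ∧ Jn g e g.a x ∧ Jn g m x y ∧ Jn g f y g.b ∧
    e ≠ m ∧ m ≠ f ∧ e ≠ f

variable [DecidableEq E]

theorem J3_path (hg : Hyp g) {S A : Finset E}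
    (hS : ∀ s ∈ S, ∀ s' ∈ S, g.pe s = g.pe s' → s = s') (hA : A ⊆ S)
    (h : g.sp ⊥ A g.a g.b) (hc : nc (g.sp ⊥ A) + 3 = Fintype.card V) :
    ∃ m ∈ S, Pa g S A m := by
  obtain ⟨e, he, f, hf, x, y, hx, hy, h1, h2, h3, h4, h5⟩ := J3 hg h
  have h7 := RT_nc ({g.a, g.b, x, y} : Finset V) ⟨g.a, by simp⟩
  rw [card4 hg.ab h1 h2 h3 h4 h5] at h7
  have h8 : rt ({g.a, g.b, x, y} : Finset V) = g.sp ⊥ A :=
    eq_of_le_of_nc (rt4 he hf h hx hy) (by omega)
  have key : ∀ k ∈ A, k = e ∨ k = f ∨ Jn g k x y := by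
    intro k hk
    have h9 : g.sp ⊥ A (g.u k) (g.v k) := g.pe_le_sp ⊥ hk (pr_rel _ _)
    rw [← h8] at h9
    rcases h9 with h9 | ⟨h9, h10⟩
    · exact absurd h9 (hg.lp k)
    · simp only [Finset.mem_insert, Finset.mem_singleton] at h9 h10
      have hke : Jn g k g.a x → k = e := fun h =>
        hS k (hA hk) e (hA he) ((pe_eq_of_Jn g h).trans (pe_eq_of_Jn g hx).symm)
      have hkf : Jn g k y g.b → k = f := fun h =>
        hS k (hA hk) f (hA hf) ((pe_eq_of_Jn g h).trans (pe_eq_of_Jn g hy).symm)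
      have hab := hg.nab k
      have hay : ¬ Jn g k g.a y := fun h => hg.ncom ⟨k, f, y, h, hy⟩
      have hxb : ¬ Jn g k x g.b := fun h => hg.ncom ⟨e, k, x, hx, h⟩
      have hlk := hg.lp k
      rcases h9 with h9 | h9 | h9 | h9 <;> rcases h10 with h10 | h10 | h10 | h10
      · exact absurd (h9.trans h10.symm) hlk
      · exact absurd (Or.inl ⟨h9, h10⟩) hab
      · exact Or.inl (hke (Or.inl ⟨h9, h10⟩))
      · exact absurd (Or.inl ⟨h9, h10⟩) hay
      · exact absurd (Or.inr ⟨h9, h10⟩) hab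
      · exact absurd (h9.trans h10.symm) hlk
      · exact absurd (Or.inr ⟨h9, h10⟩) hxb
      · exact Or.inr (Or.inl (hkf (Or.inr ⟨h9, h10⟩)))
      · exact Or.inl (hke (Or.inr ⟨h9, h10⟩))
      · exact absurd (Or.inl ⟨h9, h10⟩) hxb
      · exact absurd (h9.trans h10.symm) hlk
      · exact Or.inr (Or.inr (Or.inl ⟨h9, h10⟩))
      · exact absurd (Or.inr ⟨h9, h10⟩) hay
      · exact Or.inr (Or.inl (hkf (Or.inl ⟨h9, h10⟩)))
      · exact Or.inr (Or.inr (Or.inr ⟨h9, h10⟩))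
      · exact absurd (h9.trans h10.symm) hlk
  have hm : ∃ m ∈ A, Jn g m x y := by
    by_contra hn
    push Not at hn
    have h9 : g.sp ⊥ A ≤ Setoid.ker (fun z : V => decide (z = g.a ∨ z = x)) := by
      apply g.sp_le bot_le
      intro k hk
      show decide (g.u k = g.a ∨ g.u k = x) = decide (g.v k = g.a ∨ g.v k = x)
      have hy' : ¬ (y = g.a ∨ y = x) := by
        rintro (h | h)
        · exact h3 h
        · exact h5 h.symm
      have hb' : ¬ (g.b = g.a ∨ g.b = x) := by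
        rintro (h | h)
        · exact hg.ab h.symm
        · exact h2 h.symm
      rcases key k hk with rfl | rfl | h10
      · rcases hx with ⟨p, q⟩ | ⟨p, q⟩ <;> rw [p, q] <;> simp
      · rcases hy with ⟨p, q⟩ | ⟨p, q⟩ <;>
          rw [p, q, decide_eq_false hy', decide_eq_false hb']
      · exact absurd h10 (hn k hk)
    have h10 : decide (g.a = g.a ∨ g.a = x) = decide (g.b = g.a ∨ g.b = x) := h9 h
    have hb' : ¬ (g.b = g.a ∨ g.b = x) := by
      rintro (h | h)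
      · exact hg.ab h.symm
      · exact h2 h.symm
    rw [decide_eq_true (Or.inl rfl), decide_eq_false hb'] at h10
    exact absurd h10 (by decide)
  obtain ⟨m, hmA, hm⟩ := hm
  have hem : e ≠ m := by
    rintro rfl
    rcases hx with ⟨p, q⟩ | ⟨p, q⟩ <;> rcases hm with ⟨p', q'⟩ | ⟨p', q'⟩
    · exact h1 (p'.symm.trans p)
    · exact h3 (p'.symm.trans p)
    · exact h3 (q'.symm.trans q)
    · exact h1 (q'.symm.trans q)
  have hmf : m ≠ f := by
    rintro rfl
    rcases hy with ⟨p, q⟩ | ⟨p, q⟩ <;> rcases hm with ⟨p', q'⟩ | ⟨p', q'⟩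
    · exact h4 (q'.symm.trans q)
    · exact h2 (q'.symm.trans q)
    · exact h2 (p'.symm.trans p)
    · exact h4 (p'.symm.trans p)
  have hef : e ≠ f := by
    rintro rfl
    rcases hx with ⟨p, q⟩ | ⟨p, q⟩ <;> rcases hy with ⟨p', q'⟩ | ⟨p', q'⟩
    · exact h3 (p'.symm.trans p)
    · exact h5 (q.symm.trans q')
    · exact h5 (p.symm.trans p')
    · exact h3 (q'.symm.trans q)
  refine ⟨m, hA hmA, e, hA he, f, hA hf, x, y, ?_, hx, hm, hy, hem, hmf, hef⟩
  ext k
  simp only [Finset.mem_insert, Finset.mem_singleton]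
  constructor
  · intro hk
    rcases key k hk with h | h | h
    · exact Or.inl h
    · exact Or.inr (Or.inr h)
    · exact Or.inr (Or.inl (hS k (hA hk) m (hA hmA)
        ((pe_eq_of_Jn g h).trans (pe_eq_of_Jn g hm).symm)))
  · rintro (h | h | h)
    · rw [h]; exact he
    · rw [h]; exact hmA
    · rw [h]; exact hf

omit [Fintype V] [DecidableEq V] in
/-- the path is determined by its middle edge -/
theorem Pa_inj (hg : Hyp g) {S A A' : Finset E} {m : E}
    (hS : ∀ s ∈ S, ∀ s' ∈ S, g.pe s = g.pe s' → s = s') (h : Pa g S A m) (h' : Pa g S A' m) :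
    A = A' := by
  obtain ⟨e, he, f, hf, x, y, hA, hx, hm, hy, -⟩ := h
  obtain ⟨e', he', f', hf', x', y', hA', hx', hm', hy', -⟩ := h'
  have hxy : x = x' ∧ y = y' := by
    rcases hm with ⟨p, q⟩ | ⟨p, q⟩ <;> rcases hm' with ⟨p', q'⟩ | ⟨p', q'⟩
    · exact ⟨p.symm.trans p', q.symm.trans q'⟩
    · exfalso
      have h1 : x = y' := p.symm.trans p'
      rw [← h1] at hy'
      exact hg.ncom ⟨e, f', x, hx, hy'⟩
    · exfalso
      have h1 : x = y' := q.symm.trans q'
      rw [← h1] at hy'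
      exact hg.ncom ⟨e, f', x, hx, hy'⟩
    · exact ⟨q.symm.trans q', p.symm.trans p'⟩
  obtain ⟨rfl, rfl⟩ := hxy
  have h1 : e = e' := hS e he e' he' ((pe_eq_of_Jn g hx).trans (pe_eq_of_Jn g hx').symm)
  have h2 : f = f' := hS f hf f' hf' ((pe_eq_of_Jn g hy).trans (pe_eq_of_Jn g hy').symm)
  rw [hA, hA', h1, h2]

omit [Fintype V] [DecidableEq V] in
theorem Pa_card {S A : Finset E} {m : E} (h : Pa g S A m) : A.card = 3 := by
  obtain ⟨e, he, f, hf, x, y, hA, hx, hm, hy, h1, h2, h3⟩ := h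
  rw [hA, Finset.card_insert_of_notMem, Finset.card_insert_of_notMem, Finset.card_singleton]
  · simpa using h2
  · simp only [Finset.mem_insert, Finset.mem_singleton, not_or]
    exact ⟨h1, h3⟩

end finite

end Pool.LSP
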