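import Pool.Agent.LSP.A3

/-! # LS, algebra block: the two highest coefficients of the state sum -/

set_option autoImplicit false

namespace Pool.LSP

open LaurentPolynomial Pool.Agent.ARB Pool.Agent.Helper2 Pool.ALT

variable {V E : Type} [Fintype V] [Fintype E]

open Classical in
/-- the state sum of a graph with an extra edge `ab` of the other sign -/
noncomputable def FS (g : Gr V E) (s : ℤ) : LP :=
  ∑ A : Finset E, if g.sp ⊥ A g.a g.b then
      T (s * ((Fintype.card E : ℤ) - 2 * A.card + 3)) *
        loopVal ^ (2 * nc (g.sp ⊥ A) + A.card - (Fintype.card V + 1))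
    else
      T (s * ((Fintype.card E : ℤ) - 2 * A.card - 3)) *
        loopVal ^ (2 * nc (g.sp ⊥ A) + A.card - (Fintype.card V + 2))

omit [Fintype E] in
theorem nc_le (g : Gr V E) (A : Finset E) : Fintype.card V ≤ nc (g.sp ⊥ A) + A.card := by
  have h := g.nc_le_add_card ⊥ A
  rwa [nc_bot, Nat.card_eq_fintype_card] at h

omit [Fintype E] in
theorem nc_two (g : Gr V E) (A : Finset E) (h : ¬ g.sp ⊥ A g.a g.b) : 2 ≤ nc (g.sp ⊥ A) := by
  have : Nonempty V := ⟨g.a⟩
  have h1 := nc_sup_pr h
  have h2 := nc_pos (g.sp ⊥ A ⊔ pr g.a g.b)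
  omega

omit [Fintype E] in
theorem nc_one (g : Gr V E) (A : Finset E) : 1 ≤ nc (g.sp ⊥ A) := by
  have : Nonempty V := ⟨g.a⟩
  exact nc_pos _

omit [Fintype E] in
theorem nc_pe {g : Gr V E} (hl : ∀ e, g.u e ≠ g.v e) (e : E) :
    nc (g.pe e) + 1 = Fintype.card V := by
  have h : ¬ (⊥ : Setoid V) (g.u e) (g.v e) := hl e
  have h1 := nc_sup_pr h
  rw [bot_sup_eq, nc_bot, Nat.card_eq_fintype_card] at h1
  exact h1

omit [Fintype E] in
theorem nc_lt {g : Gr V E} (hl : ∀ e, g.u e ≠ g.v e) {A : Finset E} (hA : A.Nonempty) :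
    nc (g.sp ⊥ A) + 1 ≤ Fintype.card V := by
  obtain ⟨e, he⟩ := hA
  have h1 := nc_anti (g.pe_le_sp ⊥ he)
  have h2 := nc_pe hl e
  omega

theorem neg_one_pow_of (m W N k : ℕ) (h : m + W = 2 * N + k) :
    (-1 : ℤ) ^ m = (-1) ^ W * (-1) ^ k := by
  have h1 : (-1 : ℤ) ^ (m + W) = (-1) ^ k := by
    rw [h, pow_add, pow_mul]
    norm_num
  have h2 : (-1 : ℤ) ^ W * (-1) ^ W = 1 := by
    rw [← mul_pow]
    norm_num
  calc (-1 : ℤ) ^ m = (-1) ^ m * ((-1) ^ W * (-1) ^ W) := by rw [h2, mul_one]
    _ = (-1) ^ W * (-1) ^ (m + W) := by rw [pow_add]; ring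
    _ = _ := by rw [h1]

open Classical in
theorem cf_top {g : Gr V E} (hg : Hyp g) :
    (FS g 1).coeff ((Fintype.card E : ℤ) + 2 * Fintype.card V - 7) = (-1) ^ Fintype.card V := by
  unfold FS
  rw [coeff_sum', Finset.sum_eq_single ∅]
  · have h1 : ¬ g.sp ⊥ ∅ g.a g.b := by
      rw [g.sp_empty]
      exact hg.ab
    have h2 : nc (g.sp ⊥ ∅) = Fintype.card V := by
      rw [g.sp_empty, nc_bot, Nat.card_eq_fintype_card]
    have h3 := nc_two g ∅ h1
    rw [h2] at h3
    rw [if_neg h1, tm_top, h2, neg_one_pow_of _ (Fintype.card V + 2) (Fintype.card V) 0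
      (by rw [Finset.card_empty]; omega), pow_add]
    · ring
    · rw [h2, Finset.card_empty]
      push_cast [Nat.cast_sub (show Fintype.card V + 2 ≤ 2 * Fintype.card V + 0 by omega)]
      ring
  · intro A _ hA
    have hA' : A.Nonempty := Finset.nonempty_iff_ne_empty.2 hA
    have h1 := nc_lt hg.lp hA'
    have h2 := nc_le g A
    by_cases hj : g.sp ⊥ A g.a g.b
    · have h3 := J3_nc hg hj
      have h4 := nc_one g A
      rw [if_pos hj]
      apply tm_high
      push_cast [Nat.cast_sub (show Fintype.card V + 1 ≤ 2 * nc (g.sp ⊥ A) + A.card by omega)]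
      omega
    · have h4 := nc_two g A hj
      rw [if_neg hj]
      apply tm_high
      push_cast [Nat.cast_sub (show Fintype.card V + 2 ≤ 2 * nc (g.sp ⊥ A) + A.card by omega)]
      omega
  · intro h
    exact absurd (Finset.mem_univ _) h

open Classical in
/-- the summands of the second coefficient -/
noncomputable def psi (g : Gr V E) (σ : Setoid V) : ℤ :=
  if σ g.a g.b then (if nc σ + 3 = Fintype.card V then -1 else 0)
  else (if nc σ + 1 = Fintype.card V then 1 else 0)

open Classical in
theorem cf_next {g : Gr V E} (hg : Hyp g) :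
    (FS g 1).coeff ((Fintype.card E : ℤ) + 2 * Fintype.card V - 11) = (-1) ^ Fintype.card V *
      (((Fintype.card V : ℤ) - 2) +
        ∑ A : Finset E, (-1) ^ A.card * psi g (g.sp ⊥ A)) := by
  have key : ∀ A : Finset E, ((if g.sp ⊥ A g.a g.b then
      T (1 * ((Fintype.card E : ℤ) - 2 * A.card + 3)) *
        loopVal ^ (2 * nc (g.sp ⊥ A) + A.card - (Fintype.card V + 1))
    else
      T (1 * ((Fintype.card E : ℤ) - 2 * A.card - 3)) *
        loopVal ^ (2 * nc (g.sp ⊥ A) + A.card - (Fintype.card V + 2)) : LP)).coeff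
        ((Fintype.card E : ℤ) + 2 * Fintype.card V - 11) =
      (-1) ^ Fintype.card V * ((if A = ∅ then ((Fintype.card V : ℤ) - 2) else 0) +
        (-1) ^ A.card * psi g (g.sp ⊥ A)) := by
    intro A
    by_cases hA : A = ∅
    · subst hA
      have h1 : ¬ g.sp ⊥ ∅ g.a g.b := by
        rw [g.sp_empty]
        exact hg.ab
      have h2 : nc (g.sp ⊥ ∅) = Fintype.card V := by
        rw [g.sp_empty, nc_bot, Nat.card_eq_fintype_card]
      have h3 := nc_two g ∅ h1
      rw [h2] at h3
      have h4 : psi g (g.sp ⊥ ∅) = 0 := by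
        unfold psi
        rw [if_neg h1, if_neg (by omega)]
      rw [if_neg h1, if_pos rfl, h4, tm_next, h2, neg_one_pow_of _ (Fintype.card V + 2)
        (Fintype.card V) 0 (by rw [Finset.card_empty]; omega), pow_add, Finset.card_empty]
      · push_cast [Nat.cast_sub (show Fintype.card V + 2 ≤ 2 * Fintype.card V + 0 by omega)]
        ring
      · rw [h2, Finset.card_empty]
        push_cast [Nat.cast_sub (show Fintype.card V + 2 ≤ 2 * Fintype.card V + 0 by omega)]
        ring
    · have hA' : A.Nonempty := Finset.nonempty_iff_ne_empty.2 hA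
      have h1 := nc_lt hg.lp hA'
      have h2 := nc_le g A
      rw [if_neg hA, zero_add]
      by_cases hj : g.sp ⊥ A g.a g.b
      · have h3 := J3_nc hg hj
        have h4 := nc_one g A
        rw [if_pos hj]
        unfold psi
        rw [if_pos hj]
        by_cases h5 : nc (g.sp ⊥ A) + 3 = Fintype.card V
        · rw [if_pos h5, tm_top, neg_one_pow_of _ (Fintype.card V + 1) (nc (g.sp ⊥ A)) A.card
            (by omega), pow_add]
          · ring
          · push_cast [Nat.cast_sub
              (show Fintype.card V + 1 ≤ 2 * nc (g.sp ⊥ A) + A.card by omega)]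
            omega
        · rw [if_neg h5, tm_high, mul_zero, mul_zero]
          push_cast [Nat.cast_sub
              (show Fintype.card V + 1 ≤ 2 * nc (g.sp ⊥ A) + A.card by omega)]
          omega
      · have h4 := nc_two g A hj
        rw [if_neg hj]
        unfold psi
        rw [if_neg hj]
        by_cases h5 : nc (g.sp ⊥ A) + 1 = Fintype.card V
        · rw [if_pos h5, tm_top, neg_one_pow_of _ (Fintype.card V + 2) (nc (g.sp ⊥ A)) A.card
            (by omega), pow_add]
          · ring
          · push_cast [Nat.cast_sub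
              (show Fintype.card V + 2 ≤ 2 * nc (g.sp ⊥ A) + A.card by omega)]
            omega
        · rw [if_neg h5, tm_high, mul_zero, mul_zero]
          push_cast [Nat.cast_sub
              (show Fintype.card V + 2 ≤ 2 * nc (g.sp ⊥ A) + A.card by omega)]
          omega
  unfold FS
  rw [coeff_sum', Finset.sum_congr rfl fun A _ => key A, ← Finset.mul_sum,
    Finset.sum_add_distrib, Finset.sum_ite_eq' Finset.univ (∅ : Finset E), if_pos (Finset.mem_univ _)]

omit [Fintype E] in
open Classical in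
/-- the sum over a transversal -/
theorem psi_sum {g : Gr V E} (hg : Hyp g) {S : Finset E}
    (hS : ∀ s ∈ S, ∀ s' ∈ S, g.pe s = g.pe s' → s = s') :
    ∑ A ∈ S.powerset, (-1) ^ A.card * psi g (g.sp ⊥ A) =
      ((S.powerset.filter fun A => g.sp ⊥ A g.a g.b ∧
        nc (g.sp ⊥ A) + 3 = Fintype.card V).card : ℤ) - S.card := by
  have key : ∀ A ∈ S.powerset, (-1) ^ A.card * psi g (g.sp ⊥ A) =
      (if g.sp ⊥ A g.a g.b ∧ nc (g.sp ⊥ A) + 3 = Fintype.card V then 1 else 0) -
        (if A.card = 1 then 1 else 0) := by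
    intro A hA
    rw [Finset.mem_powerset] at hA
    unfold psi
    by_cases hj : g.sp ⊥ A g.a g.b
    · have h3 := J3_nc hg hj
      have h1 : A.card ≠ 1 := by
        intro h
        have := nc_le g A
        omega
      rw [if_pos hj, if_neg h1]
      by_cases h5 : nc (g.sp ⊥ A) + 3 = Fintype.card V
      · obtain ⟨m, -, hm⟩ := J3_path hg hS hA hj h5
        rw [if_pos h5, if_pos ⟨hj, h5⟩, Pa_card hm]
        norm_num
      · rw [if_neg h5, if_neg (fun h => h5 h.2)]
        norm_num
    · rw [if_neg hj, if_neg (show ¬ (g.sp ⊥ A g.a g.b ∧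
        nc (g.sp ⊥ A) + 3 = Fintype.card V) from fun h => hj h.1)]
      by_cases h5 : nc (g.sp ⊥ A) + 1 = Fintype.card V
      · have h6 : A.Nonempty := by
          rw [Finset.nonempty_iff_ne_empty]
          rintro rfl
          rw [g.sp_empty, nc_bot, Nat.card_eq_fintype_card] at h5
          omega
        obtain ⟨e, he⟩ := h6
        have h7 : ∀ f ∈ A, g.pe f = g.sp ⊥ A := by
          intro f hf
          apply eq_of_le_of_nc (g.pe_le_sp ⊥ hf)
          have := nc_pe hg.lp f
          omega
        have h8 : A = {e} := by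
          ext f
          rw [Finset.mem_singleton]
          constructor
          · intro hf
            exact hS f (hA hf) e (hA he) ((h7 f hf).trans (h7 e he).symm)
          · rintro rfl
            exact he
        have h9 : A.card = 1 := by rw [h8, Finset.card_singleton]
        rw [if_pos h5, if_pos h9, h9]
        norm_num
      · have h9 : A.card ≠ 1 := by
          intro h
          have h10 := nc_le g A
          have h11 := nc_lt hg.lp (Finset.card_pos.1 (by omega : 0 < A.card))
          omega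
        rw [if_neg h5, if_neg h9]
        norm_num
  rw [Finset.sum_congr rfl key, Finset.sum_sub_distrib, Finset.sum_boole, Finset.sum_boole]
  congr 2
  rw [← Finset.powersetCard_eq_filter, Finset.card_powersetCard, Nat.choose_one_right]

/-- what the vanishing of the second coefficient means -/
theorem next_zero {g : Gr V E} [DecidableEq E] (hg : Hyp g)
    (h0 : (FS g 1).coeff ((Fintype.card E : ℤ) + 2 * Fintype.card V - 11) = 0) :
    ∃ S : Finset E, (∀ e, ∃ s ∈ S, g.pe e = g.pe s) ∧
      ∃ Q ⊆ S, S.card + 2 ≤ Fintype.card V + Q.card ∧ ∀ m ∈ Q, ∃ A, Pa g S A m := by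
  classical
  obtain ⟨S, -, h1, h2, h3⟩ := red g (Finset.univ : Finset E)
  refine ⟨S, fun e => h1 e (Finset.mem_univ e), S.filter fun m => ∃ A, Pa g S A m,
    Finset.filter_subset _ _, ?_, fun m hm => (Finset.mem_filter.1 hm).2⟩
  have h4 : ((S.powerset.filter fun A => g.sp ⊥ A g.a g.b ∧
        nc (g.sp ⊥ A) + 3 = Fintype.card V)).card ≤ (S.filter fun m => ∃ A, Pa g S A m).card := by
    apply Finset.card_le_card_of_forall_subsingleton (fun A m => Pa g S A m)
    · intro A hA
      rw [Finset.mem_filter, Finset.mem_powerset] at hA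
      obtain ⟨m, hm, hp⟩ := J3_path hg h2 hA.1 hA.2.1 hA.2.2
      exact ⟨m, Finset.mem_filter.2 ⟨hm, A, hp⟩, hp⟩
    · intro m _ A hA A' hA'
      exact Pa_inj hg h2 hA.2 hA'.2
  rw [cf_next hg] at h0
  have h5 : (-1 : ℤ) ^ Fintype.card V ≠ 0 := pow_ne_zero _ (by norm_num)
  have h6 := (mul_eq_zero.1 h0).resolve_left h5
  have h7 := h3 (psi g)
  rw [Finset.powerset_univ] at h7
  have h8 : ∑ A : Finset E, (-1) ^ A.card * psi g (g.sp ⊥ A) =
      ((S.powerset.filter fun A => g.sp ⊥ A g.a g.b ∧
        nc (g.sp ⊥ A) + 3 = Fintype.card V).card : ℤ) - S.card := by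
    rw [h7]
    exact psi_sum hg h2
  rw [h8] at h6
  omega

end Pool.LSP
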