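import Pool.Agent.LSP.A4

/-! # LS, algebra block: the graph is bipartite -/

set_option autoImplicit false

namespace Pool.LSP

open Pool.ALT

variable {V E : Type} [Fintype V]

omit [Fintype V] in
/-- two vertices in different classes can be given different colours -/
theorem flip {g : Gr V E} {A : Finset E} {p q : V} (h : ¬ g.sp ⊥ A p q) {χ : V → Bool}
    (hχ : ∀ e ∈ A, χ (g.u e) ≠ χ (g.v e)) :
    ∃ χ' : V → Bool, (∀ e ∈ A, χ' (g.u e) ≠ χ' (g.v e)) ∧ χ' p ≠ χ' q := by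
  classical
  by_cases hpq : χ p = χ q
  · refine ⟨fun z => xor (χ z) (decide (g.sp ⊥ A p z)), ?_, ?_⟩
    · intro e he
      have h1 : g.sp ⊥ A (g.u e) (g.v e) := g.pe_le_sp ⊥ he (pr_rel _ _)
      have h2 : decide (g.sp ⊥ A p (g.u e)) = decide (g.sp ⊥ A p (g.v e)) :=
        decide_eq_decide.2 ⟨fun h3 => (g.sp ⊥ A).trans' h3 h1,
          fun h3 => (g.sp ⊥ A).trans' h3 ((g.sp ⊥ A).symm' h1)⟩
      have h3 := hχ e he
      show xor (χ (g.u e)) (decide (g.sp ⊥ A p (g.u e))) ≠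
        xor (χ (g.v e)) (decide (g.sp ⊥ A p (g.v e)))
      rw [h2]
      intro h4
      exact h3 (Bool.xor_left_inj.1 h4)
    · show xor (χ p) (decide (g.sp ⊥ A p p)) ≠ xor (χ q) (decide (g.sp ⊥ A p q))
      rw [decide_eq_true ((g.sp ⊥ A).refl' p), decide_eq_false h, hpq]
      cases χ q <;> decide
  · exact ⟨χ, hχ, hpq⟩

variable [DecidableEq E]

/-- an independent set of edges can be coloured with two colours -/
theorem color (g : Gr V E) (A : Finset E) (h : A.card + nc (g.sp ⊥ A) = Fintype.card V) :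
    ∃ χ : V → Bool, ∀ e ∈ A, χ (g.u e) ≠ χ (g.v e) := by
  induction A using Finset.induction_on with
  | empty => exact ⟨fun _ => true, by simp⟩
  | insert e A he ih =>
    rw [Finset.card_insert_of_notMem he] at h
    have h1 := nc_le g A
    have h2 : nc (g.sp ⊥ A) ≤ nc (g.sp ⊥ (insert e A)) + 1 := by
      rw [g.sp_insert]
      exact nc_sup_pr_le _ _ _
    have h3 : ¬ g.sp ⊥ A (g.u e) (g.v e) := by
      intro h3
      rw [g.sp_insert_of h3] at h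
      omega
    obtain ⟨χ, hχ⟩ := ih (by omega)
    obtain ⟨χ', h4, h5⟩ := flip h3 hχ
    refine ⟨χ', ?_⟩
    intro f hf
    rcases Finset.mem_insert.1 hf with rfl | hf
    · exact h5
    · exact h4 f hf

omit [Fintype V] in
theorem Pa_mid {g : Gr V E} (hg : Hyp g) {S A : Finset E} {m : E} (h : Pa g S A m) :
    (∀ x, ¬ Jn g m g.a x) ∧ ∀ y, ¬ Jn g m y g.b := by
  obtain ⟨e, he, f, hf, x, y, -, hx, hm, hy, -⟩ := h
  have hax : x ≠ g.a := (hg.ne hx).symm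
  have hyb : y ≠ g.b := hg.ne hy
  have hay : y ≠ g.a := by
    rintro rfl
    exact hg.nab f hy
  have hxb : x ≠ g.b := by
    rintro rfl
    exact hg.nab e hx
  constructor
  · intro z hz
    rcases hm with ⟨p, q⟩ | ⟨p, q⟩ <;> rcases hz with ⟨p', q'⟩ | ⟨p', q'⟩
    · exact hax (p.symm.trans p')
    · exact hay (q.symm.trans q')
    · exact hay (p.symm.trans p')
    · exact hax (q.symm.trans q')
  · intro z hz
    rcases hm with ⟨p, q⟩ | ⟨p, q⟩ <;> rcases hz with ⟨p', q'⟩ | ⟨p', q'⟩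
    · exact hyb (q.symm.trans q')
    · exact hxb (p.symm.trans p')
    · exact hxb (q.symm.trans q')
    · exact hyb (p.symm.trans p')

theorem bip [Fintype E] {g : Gr V E} (hg : Hyp g) (hc : nc (g.sp ⊥ Finset.univ) = 1)
    (h0 : (FS g 1).coeff ((Fintype.card E : ℤ) + 2 * Fintype.card V - 11) = 0) :
    ∃ χ : V → Bool, (∀ e, χ (g.u e) ≠ χ (g.v e)) ∧ χ g.a ≠ χ g.b := by
  obtain ⟨S, hS, Q, hQS, hcard, hQ⟩ := next_zero hg h0
  have h1 : (S \ Q).card + Q.card = S.card := Finset.card_sdiff_add_card_eq_card hQS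
  have h2 := nc_le g (S \ Q)
  have hSu : nc (g.sp ⊥ S) ≤ 1 := by
    rw [← hc]
    apply nc_anti
    apply g.sp_le bot_le
    intro e _
    obtain ⟨s, hs, hs'⟩ := hS e
    apply g.pe_le_sp ⊥ hs
    rw [← hs']
    exact pr_rel _ _
  have hends : ∀ m ∈ Q, ∃ e ∈ S \ Q, ∃ f ∈ S \ Q, ∃ x y, Jn g e g.a x ∧ Jn g m x y ∧
      Jn g f y g.b := by
    intro m hm
    obtain ⟨A, e, he, f, hf, x, y, -, hx, hm', hy, -⟩ := hQ m hm
    refine ⟨e, Finset.mem_sdiff.2 ⟨he, ?_⟩, f, Finset.mem_sdiff.2 ⟨hf, ?_⟩, x, y, hx, hm', hy⟩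
    · intro h
      obtain ⟨A', hA'⟩ := hQ e h
      exact (Pa_mid hg hA').1 x hx
    · intro h
      obtain ⟨A', hA'⟩ := hQ f h
      exact (Pa_mid hg hA').2 y hy
  have hle : g.sp ⊥ S ≤ g.sp ⊥ (S \ Q) ⊔ pr g.a g.b := by
    apply g.sp_le bot_le
    intro s hs
    by_cases hsQ : s ∈ Q
    · obtain ⟨e, he, f, hf, x, y, hx, hm, hy⟩ := hends s hsQ
      have h3 : (g.sp ⊥ (S \ Q) ⊔ pr g.a g.b) x g.a := by
        apply (le_sup_left : g.sp ⊥ (S \ Q) ≤ g.sp ⊥ (S \ Q) ⊔ pr g.a g.b)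
        apply g.pe_le_sp ⊥ he
        rw [pe_eq_of_Jn g hx]
        exact Setoid.symm' _ (pr_rel _ _)
      have h4 : (g.sp ⊥ (S \ Q) ⊔ pr g.a g.b) g.b y := by
        apply (le_sup_left : g.sp ⊥ (S \ Q) ≤ g.sp ⊥ (S \ Q) ⊔ pr g.a g.b)
        apply g.pe_le_sp ⊥ hf
        rw [pe_eq_of_Jn g hy]
        exact Setoid.symm' _ (pr_rel _ _)
      have h5 : (g.sp ⊥ (S \ Q) ⊔ pr g.a g.b) g.a g.b :=
        (le_sup_right : pr g.a g.b ≤ g.sp ⊥ (S \ Q) ⊔ pr g.a g.b) (pr_rel _ _)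
      have h6 : (g.sp ⊥ (S \ Q) ⊔ pr g.a g.b) x y :=
        Setoid.trans' _ h3 (Setoid.trans' _ h5 h4)
      rcases hm with ⟨p, q⟩ | ⟨p, q⟩ <;> rw [p, q]
      · exact h6
      · exact Setoid.symm' _ h6
    · apply (le_sup_left : g.sp ⊥ (S \ Q) ≤ g.sp ⊥ (S \ Q) ⊔ pr g.a g.b)
      exact g.pe_le_sp ⊥ (Finset.mem_sdiff.2 ⟨hs, hsQ⟩) (pr_rel _ _)
  have h3 := nc_anti hle
  have h4 := nc_sup_pr_le (g.sp ⊥ (S \ Q)) g.a g.b
  have h5 : ¬ g.sp ⊥ (S \ Q) g.a g.b := by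
    intro h
    rw [sup_pr_of _ h] at h3
    omega
  obtain ⟨χ₀, hχ₀⟩ := color g (S \ Q) (by omega)
  obtain ⟨χ, hχ, hab⟩ := flip h5 hχ₀
  have hJ : ∀ {e : E} {x y : V}, Jn g e x y → χ (g.u e) ≠ χ (g.v e) → χ x ≠ χ y := by
    intro e x y h h'
    rcases h with ⟨p, q⟩ | ⟨p, q⟩ <;> rw [p, q] at h'
    · exact h'
    · exact h'.symm
  have hJ' : ∀ {e : E} {x y : V}, Jn g e x y → χ x ≠ χ y → χ (g.u e) ≠ χ (g.v e) := by
    intro e x y h h'
    rcases h with ⟨p, q⟩ | ⟨p, q⟩ <;> rw [p, q]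
    · exact h'
    · exact h'.symm
  have hSχ : ∀ s ∈ S, χ (g.u s) ≠ χ (g.v s) := by
    intro s hs
    by_cases hsQ : s ∈ Q
    · obtain ⟨e, he, f, hf, x, y, hx, hm, hy⟩ := hends s hsQ
      have h6 := hJ hx (hχ e he)
      have h7 := hJ hy (hχ f hf)
      apply hJ' hm
      revert h6 h7 hab
      cases χ g.a <;> cases χ g.b <;> cases χ x <;> cases χ y <;> decide
    · exact hχ s (Finset.mem_sdiff.2 ⟨hs, hsQ⟩)
  refine ⟨χ, ?_, hab⟩
  intro e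
  obtain ⟨s, hs, hs'⟩ := hS e
  have h6 : Jn g e (g.u s) (g.v s) := Jn_of_pe g (hg.lp s) hs'
  exact hJ' h6 (hSχ s hs)

end Pool.LSP
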