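import Mathlib

/-! # LS, algebra block: Gauss sum of a bipartite graph over pairs of colourings -/

set_option autoImplicit false

namespace Pool.LSP

/-- the sign character -/
def sn (x : ZMod 2) : ℤ := if x = 0 then 1 else -1

theorem sn_add : ∀ x y : ZMod 2, sn (x + y) = sn x * sn y := by decide

theorem sn_zero : sn 0 = 1 := rfl

theorem sn_sum {ι : Type} (s : Finset ι) (f : ι → ZMod 2) :
    sn (∑ i ∈ s, f i) = ∏ i ∈ s, sn (f i) := by
  classical
  induction s using Finset.induction_on with
  | empty => rfl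
  | insert a s ha ih => rw [Finset.sum_insert ha, Finset.prod_insert ha, sn_add, ih]

variable {V E : Type} [Fintype V] [DecidableEq V] [Fintype E]

theorem char_sum (y : V → ZMod 2) :
    ∑ f : V → ZMod 2, sn (∑ v, y v * f v) = if y = 0 then 2 ^ Fintype.card V else 0 := by
  have h1 : ∀ f : V → ZMod 2, sn (∑ v, y v * f v) = ∏ v, sn (y v * f v) := fun f => sn_sum _ _
  rw [Finset.sum_congr rfl fun f _ => h1 f]
  have h2 : ∏ v, ∑ x : ZMod 2, sn (y v * x) = ∑ f : V → ZMod 2, ∏ v, sn (y v * f v) := by
    rw [Finset.prod_univ_sum, Fintype.piFinset_univ]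
  rw [← h2]
  have h3 : ∀ c : ZMod 2, ∑ x : ZMod 2, sn (c * x) = if c = 0 then 2 else 0 := by decide
  rw [Finset.prod_congr rfl fun v _ => h3 (y v)]
  split_ifs with h
  · rw [h]
    simp
  · have h4 : ∃ v, y v ≠ 0 := by
      by_contra hn
      push Not at hn
      exact h (funext hn)
    obtain ⟨v, hv⟩ := h4
    exact Finset.prod_eq_zero (Finset.mem_univ v) (if_neg hv)

/-- difference along an edge -/
def dd (u v : E → V) (f : V → ZMod 2) (e : E) : ZMod 2 := f (u e) + f (v e)

/-- the symmetric bilinear form -/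
def Bf (u v : E → V) (f f' : V → ZMod 2) : ZMod 2 := ∑ e, dd u v f e * dd u v f' e

/-- the functional of an edge -/
def ye (u v : E → V) (e : E) (w : V) : ZMod 2 :=
  (if u e = w then 1 else 0) + (if v e = w then 1 else 0)

/-- the matrix of the form -/
def Lm (u v : E → V) : (V → ZMod 2) →ₗ[ZMod 2] (V → ZMod 2) where
  toFun f w := ∑ e, dd u v f e * ye u v e w
  map_add' f f' := by
    funext w
    show ∑ e, dd u v (f + f') e * ye u v e w = _ + _
    rw [← Finset.sum_add_distrib]
    refine Finset.sum_congr rfl fun e _ => ?_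
    show ((f (u e) + f' (u e)) + (f (v e) + f' (v e))) * _ =
      (f (u e) + f (v e)) * _ + (f' (u e) + f' (v e)) * _
    ring
  map_smul' c f := by
    funext w
    show ∑ e, dd u v (c • f) e * ye u v e w = c * ∑ e, dd u v f e * ye u v e w
    rw [Finset.mul_sum]
    refine Finset.sum_congr rfl fun e _ => ?_
    show (c * f (u e) + c * f (v e)) * _ = c * ((f (u e) + f (v e)) * _)
    ring

omit [Fintype E] in
theorem ye_sum (u v : E → V) (e : E) (f : V → ZMod 2) :
    ∑ w, ye u v e w * f w = dd u v f e := by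
  unfold ye dd
  simp only [add_mul, ite_mul, one_mul, zero_mul, Finset.sum_add_distrib, Finset.sum_ite_eq,
    Finset.mem_univ, if_true]

theorem Lm_sum (u v : E → V) (f f' : V → ZMod 2) :
    ∑ w, Lm u v f w * f' w = Bf u v f f' := by
  unfold Bf
  have h1 : ∀ w, Lm u v f w * f' w = ∑ e, dd u v f e * (ye u v e w * f' w) := by
    intro w
    show (∑ e, dd u v f e * ye u v e w) * f' w = _
    rw [Finset.sum_mul]
    exact Finset.sum_congr rfl fun e _ => mul_assoc _ _ _
  rw [Finset.sum_congr rfl fun w _ => h1 w, Finset.sum_comm]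
  refine Finset.sum_congr rfl fun e _ => ?_
  rw [← Finset.mul_sum, ye_sum]

/-- the Gauss sum -/
def Zs (u v : E → V) : ℤ := ∑ f : V → ZMod 2, ∑ f' : V → ZMod 2, sn (Bf u v f f')

/-- the part where both colourings change along `e` -/
def Ze (u v : E → V) (e : E) : ℤ :=
  ∑ f : V → ZMod 2, ∑ f' : V → ZMod 2,
    if dd u v f e = 1 ∧ dd u v f' e = 1 then sn (Bf u v f f') else 0

theorem Zs_eq (u v : E → V) :
    Zs u v = 2 ^ Fintype.card V * ((Finset.univ.filter fun f => Lm u v f = 0).card : ℤ) := by
  unfold Zs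
  have h1 : ∀ f : V → ZMod 2, ∑ f' : V → ZMod 2, sn (Bf u v f f') =
      if Lm u v f = 0 then 2 ^ Fintype.card V else 0 := by
    intro f
    rw [← char_sum]
    exact Finset.sum_congr rfl fun f' _ => by rw [Lm_sum]
  rw [Finset.sum_congr rfl fun f _ => h1 f, ← Finset.sum_filter, Finset.sum_const, nsmul_eq_mul,
    mul_comm]

theorem Ze_eq (u v : E → V) (e : E) :
    2 * Ze u v e = 2 ^ Fintype.card V *
      (((Finset.univ.filter fun f => dd u v f e = 1 ∧ Lm u v f = 0).card : ℤ) -
        ((Finset.univ.filter fun f => dd u v f e = 1 ∧ Lm u v f = ye u v e).card : ℤ)) := by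
  have h0 : ∀ a b : ZMod 2, ∀ s : ℤ, 2 * (if a = 1 ∧ b = 1 then s else 0) =
      if a = 1 then s - s * sn b else 0 := by
    intro a b s
    have h : b = 0 ∨ b = 1 := by revert b; decide
    by_cases ha : a = 1
    · rcases h with h | h
      · rw [h, if_neg (by decide +revert), if_pos ha, sn_zero]
        ring
      · rw [h, if_pos ⟨ha, rfl⟩, if_pos ha, show sn 1 = -1 from rfl]
        ring
    · rw [if_neg (fun h => ha h.1), if_neg ha, mul_zero]
  have h1 : ∀ f : V → ZMod 2, ∑ f' : V → ZMod 2, (sn (Bf u v f f') - sn (Bf u v f f') *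
      sn (dd u v f' e)) = (if Lm u v f = 0 then 2 ^ Fintype.card V else 0) -
        (if Lm u v f = ye u v e then 2 ^ Fintype.card V else 0) := by
    intro f
    rw [Finset.sum_sub_distrib]
    congr 1
    · rw [← char_sum]
      exact Finset.sum_congr rfl fun f' _ => by rw [Lm_sum]
    · have h2 : ∀ f' : V → ZMod 2, sn (Bf u v f f') * sn (dd u v f' e) =
          sn (∑ w, (Lm u v f + ye u v e) w * f' w) := by
        intro f'
        rw [← sn_add, ← Lm_sum, ← ye_sum, ← Finset.sum_add_distrib]
        congr 1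
        exact Finset.sum_congr rfl fun w _ => by rw [Pi.add_apply, add_mul]
      rw [Finset.sum_congr rfl fun f' _ => h2 f', char_sum]
      have h3 : Lm u v f + ye u v e = 0 ↔ Lm u v f = ye u v e := by
        constructor
        · intro h
          funext w
          have h4 := congrFun h w
          have h5 : ∀ a b : ZMod 2, a + b = 0 → a = b := by decide
          exact h5 _ _ h4
        · intro h
          funext w
          have h5 : ∀ a : ZMod 2, a + a = 0 := by decide
          rw [h]
          exact h5 _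
      simp only [h3]
  unfold Ze
  rw [Finset.mul_sum]
  have h2 : ∀ f : V → ZMod 2, 2 * ∑ f' : V → ZMod 2,
      (if dd u v f e = 1 ∧ dd u v f' e = 1 then sn (Bf u v f f') else 0) =
      (if dd u v f e = 1 ∧ Lm u v f = 0 then 2 ^ Fintype.card V else 0) -
        (if dd u v f e = 1 ∧ Lm u v f = ye u v e then 2 ^ Fintype.card V else 0) := by
    intro f
    rw [Finset.mul_sum, Finset.sum_congr rfl fun f' _ => h0 _ _ _]
    by_cases h : dd u v f e = 1
    · simp only [if_pos h]
      rw [h1]
      simp only [h, true_and]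
    · simp only [if_neg h, Finset.sum_const_zero]
      simp only [h, false_and, if_false, sub_zero]
  rw [Finset.sum_congr rfl fun f _ => h2 f, Finset.sum_sub_distrib, ← Finset.sum_filter,
    ← Finset.sum_filter, Finset.sum_const, Finset.sum_const, nsmul_eq_mul, nsmul_eq_mul]
  ring

end Pool.LSP
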