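import Pool.Agent.LSP.A6

/-! # LS, algebra block: Lemma Z -/

set_option autoImplicit false

namespace Pool.LSP

variable {V E : Type} [Fintype V] [DecidableEq V] [Fintype E]

omit [Fintype V] [DecidableEq V] [Fintype E] in
theorem dd_one (u v : E → V) (e : E) : dd u v (fun _ => 1) e = 0 := by
  show (1 : ZMod 2) + 1 = 0
  decide

/-- every functional of an edge is in the image when the kernel has two elements -/
theorem ye_mem [Nonempty V] (u v : E → V)
    (h2 : (Finset.univ.filter fun f => Lm u v f = 0).card = 2) (e : E) :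
    ∃ x, Lm u v x = ye u v e := by
  classical
  let s : (V → ZMod 2) →ₗ[ZMod 2] ZMod 2 := ∑ w, LinearMap.proj w
  have hs : ∀ f : V → ZMod 2, s f = ∑ w, f w := by
    intro f
    show (∑ w, LinearMap.proj w : (V → ZMod 2) →ₗ[ZMod 2] ZMod 2) f = _
    rw [LinearMap.sum_apply]
    rfl
  have hker : Module.finrank (ZMod 2) (LinearMap.ker (Lm u v)) = 1 := by
    have h3 : Fintype.card (LinearMap.ker (Lm u v)) = 2 := by
      refine Eq.trans ?_ h2
      rw [Fintype.card_subtype]
      congr 1
      ext f
      rw [Finset.mem_filter, Finset.mem_filter, LinearMap.mem_ker]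
    have h4 := Module.card_eq_pow_finrank (K := ZMod 2) (V := LinearMap.ker (Lm u v))
    rw [h3, ZMod.card] at h4
    have h5 : 2 ^ 1 = 2 ^ Module.finrank (ZMod 2) (LinearMap.ker (Lm u v)) := by
      rw [pow_one]
      exact h4
    exact (Nat.pow_right_injective (le_refl 2) h5).symm
  have hrs : LinearMap.range s = ⊤ := by
    rw [LinearMap.range_eq_top]
    intro c
    obtain ⟨w⟩ := ‹Nonempty V›
    refine ⟨Pi.single w c, ?_⟩
    rw [hs]
    simp
  have h3 := LinearMap.finrank_range_add_finrank_ker (Lm u v)
  have h4 := LinearMap.finrank_range_add_finrank_ker s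
  rw [hrs, finrank_top, Module.finrank_self] at h4
  rw [hker] at h3
  have hle : LinearMap.range (Lm u v) ≤ LinearMap.ker s := by
    rintro _ ⟨f, rfl⟩
    rw [LinearMap.mem_ker, hs]
    have h5 := Lm_sum u v f (fun _ => 1)
    simp only [mul_one] at h5
    rw [h5]
    unfold Bf
    exact Finset.sum_eq_zero fun e _ => by rw [dd_one, mul_zero]
  have heq : LinearMap.range (Lm u v) = LinearMap.ker s :=
    Submodule.eq_of_le_of_finrank_eq hle (by omega)
  have hy : ye u v e ∈ LinearMap.ker s := by
    rw [LinearMap.mem_ker, hs]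
    have h5 := ye_sum u v e (fun _ => 1)
    simp only [mul_one] at h5
    rw [h5, dd_one]
  rw [← heq] at hy
  exact hy

theorem lemZ [Nonempty V] (u v : E → V) (χ : V → ZMod 2) (hχ : ∀ e, dd u v χ e = 1)
    (h2 : (Finset.univ.filter fun f => Lm u v f = 0).card = 2) (e : E) :
    2 * Ze u v e = -Zs u v := by
  classical
  rw [Ze_eq, Zs_eq, h2]
  have hone : Lm u v (fun _ => 1) = 0 := by
    funext w
    show ∑ e, dd u v (fun _ => 1) e * ye u v e w = 0
    exact Finset.sum_eq_zero fun e _ => by rw [dd_one, zero_mul]
  have hker : (Finset.univ.filter fun f => Lm u v f = 0) = {0, fun _ => 1} := by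
    symm
    apply Finset.eq_of_subset_of_card_le
    · intro f hf
      rw [Finset.mem_insert, Finset.mem_singleton] at hf
      rw [Finset.mem_filter]
      rcases hf with rfl | rfl
      · exact ⟨Finset.mem_univ _, map_zero _⟩
      · exact ⟨Finset.mem_univ _, hone⟩
    · rw [h2, Finset.card_pair]
      intro h
      obtain ⟨w⟩ := ‹Nonempty V›
      have h3 : (0 : ZMod 2) = 1 := congrFun h w
      exact absurd h3 (by decide)
  have h3 : (Finset.univ.filter fun f => dd u v f e = 1 ∧ Lm u v f = 0) = ∅ := by
    rw [Finset.filter_eq_empty_iff]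
    rintro f - ⟨hf, hf'⟩
    have h4 : f ∈ (Finset.univ.filter fun f => Lm u v f = 0) :=
      Finset.mem_filter.2 ⟨Finset.mem_univ _, hf'⟩
    rw [hker, Finset.mem_insert, Finset.mem_singleton] at h4
    rcases h4 with rfl | rfl
    · have h5 : dd u v (0 : V → ZMod 2) e = 0 := by
        show (0 : ZMod 2) + 0 = 0
        decide
      rw [h5] at hf
      exact absurd hf (by decide)
    · rw [dd_one] at hf
      exact absurd hf (by decide)
  have h4 : (Finset.univ.filter fun f => dd u v f e = 1 ∧ Lm u v f = ye u v e).card = 2 := by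
    obtain ⟨x, hx⟩ := ye_mem u v h2 e
    have h5 : (Finset.univ.filter fun f => dd u v f e = 1 ∧ Lm u v f = ye u v e) =
        (Finset.univ.filter fun f => Lm u v f = ye u v e) := by
      apply Finset.filter_congr
      intro f _
      constructor
      · exact fun h => h.2
      · intro h
        refine ⟨?_, h⟩
        have e1 : Bf u v f f = dd u v f e := by
          rw [← Lm_sum, h, ye_sum]
        have e2 : Bf u v f χ = dd u v χ e := by
          rw [← Lm_sum, h, ye_sum]
        have e3 : Bf u v f f = Bf u v f χ := by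
          unfold Bf
          refine Finset.sum_congr rfl fun e' _ => ?_
          rw [hχ, mul_one]
          have e4 : ∀ a : ZMod 2, a * a = a := by decide
          exact e4 _
        rw [← e1, e3, e2, hχ]
    rw [h5]
    refine Eq.trans ?_ h2
    refine Finset.card_bij' (fun f _ => f - x) (fun f _ => f + x) ?_ ?_ ?_ ?_
    · intro f hf
      rw [Finset.mem_filter] at hf ⊢
      exact ⟨Finset.mem_univ _, by rw [map_sub, hf.2, hx, sub_self]⟩
    · intro f hf
      rw [Finset.mem_filter] at hf ⊢
      exact ⟨Finset.mem_univ _, by rw [map_add, hf.2, hx, zero_add]⟩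
    · intro f _
      exact sub_add_cancel f x
    · intro f _
      exact add_sub_cancel_right f x
  rw [h3, h4, Finset.card_empty]
  push_cast
  ring

end Pool.LSP
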