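import Pool.Agent.LSP.A4

/-! # LS, algebra block: state sums as sums over colourings with four colours -/

set_option autoImplicit false

namespace Pool.LSP

open Pool.ALT

/-- the four colours -/
abbrev K4 : Type := ZMod 2 × ZMod 2

theorem card_K4 : Fintype.card K4 = 4 := by decide

open Classical in
theorem count4 {V : Type} [Fintype V] (σ : Setoid V) :
    (Finset.univ.filter fun F : V → K4 => σ ≤ Setoid.ker F).card = 4 ^ nc σ := by
  have : Finite (Quotient σ) := Quotient.finite _
  have h : Nat.card {F : V → K4 // σ ≤ Setoid.ker F} = 4 ^ nc σ := by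
    rw [Nat.card_congr (Setoid.liftEquiv (β := K4) σ), Nat.card_fun, Nat.card_eq_fintype_card,
      card_K4]
    rfl
  rw [← h, Nat.card_eq_fintype_card, Fintype.card_subtype]

variable {V E : Type} [Fintype V]

open Classical in
theorem count_phi {R : Type} [CommRing R] (g : Gr V E) (A : Finset E) (p q : R) :
    4 * ∑ F : V → K4 with g.sp ⊥ A ≤ Setoid.ker F, (if F g.a = F g.b then p else q) =
      4 ^ nc (g.sp ⊥ A) * (if g.sp ⊥ A g.a g.b then 4 * p else p + 3 * q) := by
  have h1 : ∀ F : V → K4, (if F g.a = F g.b then p else q) =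
      q + (if F g.a = F g.b then p - q else 0) := by
    intro F
    split_ifs <;> ring
  have h2 : ∑ F : V → K4 with g.sp ⊥ A ≤ Setoid.ker F, (if F g.a = F g.b then p - q else 0) =
      ((4 ^ nc (g.sp ⊥ A ⊔ pr g.a g.b) : ℕ) : R) * (p - q) := by
    rw [← Finset.sum_filter, Finset.filter_filter, Finset.sum_const, nsmul_eq_mul, ← count4]
    congr 3
    apply Finset.filter_congr
    intro F _
    rw [sup_le_iff, pr_le_iff]
    exact Iff.rfl
  rw [Finset.sum_congr rfl fun F _ => h1 F, Finset.sum_add_distrib, h2, Finset.sum_const,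
    nsmul_eq_mul, count4]
  by_cases hj : g.sp ⊥ A g.a g.b
  · rw [if_pos hj, sup_pr_of _ hj]
    push_cast
    ring
  · rw [if_neg hj]
    have h3 := nc_sup_pr hj
    rw [← h3]
    push_cast
    ring

open Classical in
/-- the edges whose ends have the same colour -/
noncomputable def Ce [Fintype E] (g : Gr V E) (F : V → K4) : Finset E :=
  Finset.univ.filter fun e => F (g.u e) = F (g.v e)

omit [Fintype V] in
open Classical in
theorem sub_Ce [Fintype E] (g : Gr V E) (F : V → K4) (A : Finset E) :
    A ⊆ Ce g F ↔ g.sp ⊥ A ≤ Setoid.ker F := by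
  constructor
  · intro h
    apply g.sp_le bot_le
    intro e he
    exact (Finset.mem_filter.1 (h he)).2
  · intro h e he
    exact Finset.mem_filter.2 ⟨Finset.mem_univ _, h (g.pe_le_sp ⊥ he (pr_rel _ _))⟩

open Classical in
/-- exchange of the sum over edge sets and the sum over colourings -/
theorem swap {R : Type} [CommRing R] [Fintype E] (g : Gr V E) (z p q : R) :
    4 * ∑ F : V → K4, (if F g.a = F g.b then p else q) * (1 + z) ^ (Ce g F).card =
      ∑ A : Finset E, z ^ A.card * (4 ^ nc (g.sp ⊥ A) *
        (if g.sp ⊥ A g.a g.b then 4 * p else p + 3 * q)) := by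
  have h1 : ∀ F : V → K4, (if F g.a = F g.b then p else q) * (1 + z) ^ (Ce g F).card =
      ∑ A : Finset E, if g.sp ⊥ A ≤ Setoid.ker F then
        z ^ A.card * (if F g.a = F g.b then p else q) else 0 := by
    intro F
    have h2 := Finset.sum_pow_mul_eq_add_pow z (1 : R) (Ce g F)
    simp only [one_pow, mul_one] at h2
    rw [add_comm 1 z, ← h2, Finset.mul_sum, ← Finset.sum_filter]
    apply Finset.sum_congr
    · ext A
      rw [Finset.mem_powerset, Finset.mem_filter, sub_Ce]
      simp
    · intro A _
      ring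
  rw [Finset.sum_congr rfl fun F _ => h1 F, Finset.sum_comm, Finset.mul_sum]
  refine Finset.sum_congr rfl fun A _ => ?_
  rw [← Finset.sum_filter, ← Finset.mul_sum, ← count_phi]
  ring

end Pool.LSP
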