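import Pool.Agent.LSP.A7
import Pool.Agent.LSP.A8

/-! # LS, algebra block: value and derivative of the state sum at `A = 1` -/

set_option autoImplicit false

namespace Pool.LSP

open LaurentPolynomial Pool.Agent.ARB Pool.Agent.Helper2 Pool.ALT

/-- the infinitesimal unit -/
def ep : DualNumber ℤ := DualNumber.eps

theorem ep_mul : ep * ep = 0 := DualNumber.eps_mul_eps

/-- `1 + ε` -/
def ue : (DualNumber ℤ)ˣ where
  val := 1 + ep
  inv := 1 - ep
  val_inv := by linear_combination -ep_mul
  inv_val := by linear_combination -ep_mul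

/-- evaluation at `1 + ε` -/
noncomputable def evd : LP →+* DualNumber ℤ := LaurentPolynomial.eval₂ (Int.castRingHom _) ue

theorem ue_zpow (k : ℤ) : ((ue ^ k : (DualNumber ℤ)ˣ) : DualNumber ℤ) = 1 + (k : DualNumber ℤ) * ep := by
  induction k using Int.induction_on with
  | zero => simp
  | succ i ih =>
    rw [zpow_add, zpow_one, Units.val_mul, ih]
    show _ * (1 + ep) = _
    push_cast
    linear_combination (i : DualNumber ℤ) * ep_mul
  | pred i ih =>
    rw [zpow_sub, zpow_one, Units.val_mul, ih]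
    show _ * (1 - ep) = _
    push_cast
    linear_combination (i : DualNumber ℤ) * ep_mul

theorem evd_T (k : ℤ) : evd (T k) = 1 + (k : DualNumber ℤ) * ep := by
  rw [← ue_zpow]
  exact LaurentPolynomial.eval₂_T _ _ _

theorem evd_loop : evd loopVal = -2 := by
  rw [show (loopVal : LP) = -(T 2 + T (-2)) from rfl, map_neg, map_add, evd_T, evd_T]
  push_cast
  ring

theorem one_add_pow (c : DualNumber ℤ) (k : ℕ) : (1 + c * ep) ^ k = 1 + k * c * ep := by
  induction k with
  | zero => simp
  | succ k ih =>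
    rw [pow_succ, ih]
    push_cast
    linear_combination (k : DualNumber ℤ) * c * c * ep_mul

variable {V E : Type} [Fintype V] [Fintype E]

open Classical in
theorem ev_FS (g : Gr V E) :
    4 * (-2) ^ (Fintype.card V + 2) * evd (FS g 1) =
      (1 + (Fintype.card E : DualNumber ℤ) * ep) * (4 * ∑ F : V → K4,
        (if F g.a = F g.b then -2 * (1 + 3 * ep) else 2 * (1 - ep)) *
          (1 + (-2 + 4 * ep)) ^ (Ce g F).card) := by
  rw [swap]
  unfold FS
  rw [map_sum, Finset.mul_sum, Finset.mul_sum]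
  refine Finset.sum_congr rfl fun A _ => ?_
  have h1 := nc_le g A
  have hz : (-2 + 4 * ep : DualNumber ℤ) ^ A.card = (-2) ^ A.card * (1 - 2 * A.card * ep) := by
    rw [show (-2 + 4 * ep : DualNumber ℤ) = -2 * (1 + (-2) * ep) by ring, mul_pow, one_add_pow]
    ring
  have h4 : ∀ N : ℕ, (-2 : DualNumber ℤ) ^ (2 * N) = 4 ^ N := by
    intro N
    rw [pow_mul]
    norm_num
  by_cases hj : g.sp ⊥ A g.a g.b
  · have h2 := nc_one g A
    rw [if_pos hj, if_pos hj, map_mul, map_pow, evd_T, evd_loop, hz]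
    obtain ⟨m, hm⟩ : ∃ m, m = 2 * nc (g.sp ⊥ A) + A.card - (Fintype.card V + 1) := ⟨_, rfl⟩
    rw [← hm]
    have h3 : m + (Fintype.card V + 2) = 2 * nc (g.sp ⊥ A) + A.card + 1 := by omega
    have h5 : (-2 : DualNumber ℤ) ^ m * (-2) ^ (Fintype.card V + 2) =
        4 ^ nc (g.sp ⊥ A) * (-2) ^ A.card * (-2) := by
      rw [← pow_add, h3, pow_add, pow_add, h4, pow_one]
    have h6 : (1 + ((1 * ((Fintype.card E : ℤ) - 2 * A.card + 3) : ℤ) : DualNumber ℤ) * ep) =
        (1 + (Fintype.card E : DualNumber ℤ) * ep) * (1 - 2 * A.card * ep) * (1 + 3 * ep) := by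
      push_cast
      linear_combination (2 * (Fintype.card E : DualNumber ℤ) * A.card - 3 * Fintype.card E +
        6 * A.card + 6 * Fintype.card E * A.card * ep) * ep_mul
    rw [h6]
    linear_combination (4 * (1 + (Fintype.card E : DualNumber ℤ) * ep) * (1 - 2 * A.card * ep) *
      (1 + 3 * ep)) * h5
  · have h2 := nc_two g A hj
    rw [if_neg hj, if_neg hj, map_mul, map_pow, evd_T, evd_loop, hz]
    obtain ⟨m, hm⟩ : ∃ m, m = 2 * nc (g.sp ⊥ A) + A.card - (Fintype.card V + 2) := ⟨_, rfl⟩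
    rw [← hm]
    have h3 : m + (Fintype.card V + 2) = 2 * nc (g.sp ⊥ A) + A.card := by omega
    have h5 : (-2 : DualNumber ℤ) ^ m * (-2) ^ (Fintype.card V + 2) =
        4 ^ nc (g.sp ⊥ A) * (-2) ^ A.card := by
      rw [← pow_add, h3, pow_add, h4]
    have h6 : (1 + ((1 * ((Fintype.card E : ℤ) - 2 * A.card - 3) : ℤ) : DualNumber ℤ) * ep) =
        (1 + (Fintype.card E : DualNumber ℤ) * ep) * (1 - 2 * A.card * ep) * (1 - 3 * ep) := by
      push_cast
      linear_combination (2 * (Fintype.card E : DualNumber ℤ) * A.card + 3 * Fintype.card E -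
        6 * A.card - 6 * Fintype.card E * A.card * ep) * ep_mul
    rw [h6]
    linear_combination (4 * (1 + (Fintype.card E : DualNumber ℤ) * ep) * (1 - 2 * A.card * ep) *
      (1 - 3 * ep)) * h5

end Pool.LSP
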